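import Mathlib

open Set Filter Topology Manifold Bundle
open scoped ContDiff

namespace Pool.Agent.Hhelper9.Chern

noncomputable section

/-- Value at `y` of the affine map `h g`. -/
def act {Ev : Type*} [NormedAddCommGroup Ev] [NormedSpace ℝ Ev] {Γ : Type*} [Group Γ]
    (h : Γ →* (Ev ≃ᵃ[ℝ] Ev)) (g : Γ) (y : Ev) : Ev := h g y

/-- Value at `v` of the linear part of the affine map `h g`. -/
def linAct {Ev : Type*} [NormedAddCommGroup Ev] [NormedSpace ℝ Ev] {Γ : Type*} [Group Γ]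
    (h : Γ →* (Ev ≃ᵃ[ℝ] Ev)) (g : Γ) (v : Ev) : Ev := (h g).linear v

/-- Near the point `x`, the map `D` is an affine isomorphism of `Ev` composed with `f`. -/
def IsAffineOf {Ev : Type*} [NormedAddCommGroup Ev] [NormedSpace ℝ Ev] {X : Type*}
    [TopologicalSpace X] (D f : X → Ev) (x : X) : Prop :=
  ∃ A : Ev ≃ᵃ[ℝ] Ev, ∀ᶠ y in 𝓝 x, D y = A (f y)

/-- `(X, p, D, h)` are developing data for the affine structure given by the atlas of `M`. -/
structure IsDeveloping {Ev : Type*} [NormedAddCommGroup Ev] [NormedSpace ℝ Ev] {M X Γ : Type*}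
    [TopologicalSpace M] [ChartedSpace Ev M] [TopologicalSpace X] [Group Γ] [MulAction Γ X]
    (p : X → M) (D : X → Ev) (h : Γ →* (Ev ≃ᵃ[ℝ] Ev)) : Prop where
  isLocalHomeomorph : IsLocalHomeomorph p
  surjective : Function.Surjective p
  fiber : ∀ x y, p x = p y ↔ ∃ g : Γ, g • x = y
  equivariant' : ∀ (g : Γ) (x : X), D (g • x) = act h g (D x)
  affine' : ∀ e ∈ atlas Ev M, ∀ x, p x ∈ e.source → IsAffineOf D (fun y => e (p y)) x

theorem IsDeveloping.equivariant {Ev : Type*} [NormedAddCommGroup Ev] [NormedSpace ℝ Ev]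
    {M X Γ : Type*} [TopologicalSpace M] [ChartedSpace Ev M] [TopologicalSpace X] [Group Γ]
    [MulAction Γ X] {p : X → M} {D : X → Ev} {h : Γ →* (Ev ≃ᵃ[ℝ] Ev)} (hd : IsDeveloping p D h) :
    ∀ (g : Γ) (x : X), D (g • x) = h g (D x) := hd.equivariant'

theorem IsDeveloping.affine {Ev : Type*} [NormedAddCommGroup Ev] [NormedSpace ℝ Ev]
    {M X Γ : Type*} [TopologicalSpace M] [ChartedSpace Ev M] [TopologicalSpace X] [Group Γ]
    [MulAction Γ X] {p : X → M} {D : X → Ev} {h : Γ →* (Ev ≃ᵃ[ℝ] Ev)} (hd : IsDeveloping p D h) :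
    ∀ e ∈ atlas Ev M, ∀ x, p x ∈ e.source →
    ∃ A : Ev ≃ᵃ[ℝ] Ev, ∀ᶠ y in 𝓝 x, D y = A (e (p y)) := hd.affine'

section conv

variable {Ev : Type*} [NormedAddCommGroup Ev] [InnerProductSpace ℝ Ev] [FiniteDimensional ℝ Ev]

/-- The recession set of `C`: directions in which `C` can be translated into itself. -/
def rec (C : Set Ev) : Set Ev := {v | ∀ y ∈ C, y + v ∈ C}

theorem rec_add {C : Set Ev} {v w : Ev} (hv : v ∈ rec C) (hw : w ∈ rec C) : v + w ∈ rec C := by
  intro y hy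
  rw [← add_assoc]
  exact hw _ (hv y hy)

theorem rec_nsmul {C : Set Ev} {v : Ev} (hv : v ∈ rec C) (k : ℕ) : k • v ∈ rec C := by
  induction k with
  | zero => intro y hy; simpa using hy
  | succ k ih => rw [succ_nsmul]; exact rec_add ih hv

theorem rec_smul {C : Set Ev} (hC : Convex ℝ C) {v : Ev} (hv : v ∈ rec C) {t : ℝ}
    (ht : 0 ≤ t) : t • v ∈ rec C := by
  intro y hy
  obtain ⟨k, hk⟩ := exists_nat_gt t
  have hk0 : (0 : ℝ) < k := lt_of_le_of_lt ht hk
  have h1 := rec_nsmul hv k y hy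
  have h2 := hC hy h1 (a := 1 - t / k) (b := t / k) (by
    have : t / k ≤ 1 := by rw [div_le_one hk0]; exact hk.le
    linarith) (by positivity) (by ring)
  have h3 : (1 - t / k) • y + (t / k) • (y + k • v) = y + t • v := by
    rw [← Nat.cast_smul_eq_nsmul ℝ, smul_add, smul_smul, div_mul_cancel₀ _ hk0.ne', sub_smul,
      one_smul]
    abel
  rwa [h3] at h2

/-- A closed convex set whose recession set is symmetric is bounded modulo a linear subspace. -/
theorem bounded_mod {C : Set Ev} (hC : Convex ℝ C) (hcl : IsClosed C)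
    (hsym : ∀ v ∈ rec C, -v ∈ rec C) :
    ∃ L : Submodule ℝ Ev, (∀ l, l ∈ L ↔ l ∈ rec C) ∧ ∃ B : ℝ, ∀ k ∈ C, ∃ l ∈ L, ‖k - l‖ ≤ B := by
  let L : Submodule ℝ Ev :=
    { carrier := rec C
      add_mem' := fun ha hb => rec_add ha hb
      zero_mem' := fun y hy => by simpa using hy
      smul_mem' := by
        intro t v hv
        rcases le_total 0 t with ht | ht
        · exact rec_smul hC hv ht
        · have := rec_smul hC (hsym v hv) (t := -t) (by linarith)
          simpa using this }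
  refine ⟨L, fun l => Iff.rfl, ?_⟩
  by_contra hcon
  push Not at hcon
  choose k hkC hk using fun N : ℕ => hcon N
  -- orthogonal projection
  let q : ℕ → Ev := fun N => k N - (L.starProjection (k N))
  have hqL : ∀ N, q N ∈ Lᗮ := fun N => L.sub_starProjection_mem_orthogonal (k N)
  have hprojL : ∀ N, L.starProjection (k N) ∈ L := fun N => L.starProjection_apply_mem (k N)
  have hqC : ∀ N, q N ∈ C := by
    intro N
    have h1 : -(L.starProjection (k N)) ∈ rec C := hsym _ (hprojL N)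
    have := h1 (k N) (hkC N)
    simpa [q, sub_eq_add_neg] using this
  have hqN : ∀ N : ℕ, (N : ℝ) < ‖q N‖ := fun N => hk N _ (hprojL N)
  have hpos : ∀ N, 0 < ‖q N‖ := fun N => lt_of_le_of_lt (Nat.cast_nonneg N) (hqN N)
  let u : ℕ → Ev := fun N => (‖q N‖)⁻¹ • q N
  have hu : ∀ N, u N ∈ Metric.sphere (0 : Ev) 1 := by
    intro N
    simp only [mem_sphere_zero_iff_norm, u, norm_smul, norm_inv, norm_norm]
    exact inv_mul_cancel₀ (hpos N).ne'
  obtain ⟨u₀, hu₀, φ, hφ, hlim⟩ := (isCompact_sphere (0 : Ev) 1).tendsto_subseq hu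
  have hu0L : u₀ ∈ Lᗮ := by
    have hclosed : IsClosed (Lᗮ : Set Ev) := Submodule.isClosed_orthogonal L
    refine hclosed.mem_of_tendsto hlim (Filter.Eventually.of_forall fun N => ?_)
    exact Submodule.smul_mem _ _ (hqL _)
  have hu0rec : u₀ ∈ rec C := by
    intro y hy
    have hs : Tendsto (fun N : ℕ => (‖q (φ N)‖)⁻¹) atTop (𝓝 0) := by
      apply Filter.Tendsto.inv_tendsto_atTop
      refine tendsto_atTop_mono (fun N => (hqN (φ N)).le) ?_
      exact tendsto_natCast_atTop_atTop.comp hφ.tendsto_atTop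
    have hlim2 : Tendsto (fun N : ℕ => (1 - (‖q (φ N)‖)⁻¹) • y + u (φ N)) atTop (𝓝 (y + u₀)) := by
      have h1 : Tendsto (fun N : ℕ => (1 - (‖q (φ N)‖)⁻¹) • y) atTop (𝓝 ((1 - 0 : ℝ) • y)) :=
        (tendsto_const_nhds.sub hs).smul_const y
      rw [sub_zero, one_smul] at h1
      exact h1.add hlim
    refine hcl.mem_of_tendsto hlim2 ?_
    filter_upwards [Filter.eventually_ge_atTop 1] with N hN
    have hge : 1 ≤ ‖q (φ N)‖ := by
      have h2 := hqN (φ N)
      have h3 : N ≤ φ N := hφ.id_le N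
      have h4 : (1 : ℝ) ≤ (φ N : ℝ) := by exact_mod_cast hN.trans h3
      linarith
    have h5 : (‖q (φ N)‖)⁻¹ ≤ 1 := inv_le_one_of_one_le₀ hge
    exact hC hy (hqC (φ N)) (by linarith) (by positivity) (by ring)
  have hmem : u₀ ∈ L := hu0rec
  have hz : u₀ = 0 := by
    have h1 : u₀ ∈ L ⊓ Lᗮ := ⟨hmem, hu0L⟩
    rw [Submodule.inf_orthogonal_eq_bot] at h1
    simpa using h1
  rw [hz] at hu₀
  simp at hu₀

/-- depth: near an interior point one can uniformly move away from all points of `C`. -/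
theorem depth {C : Set Ev} (hC : Convex ℝ C) (hcl : IsClosed C)
    (hsym : ∀ v ∈ rec C, -v ∈ rec C) {y₀ : Ev} (hy : y₀ ∈ interior C) :
    ∃ r > 0, ∃ lam > 0, ∀ y ∈ Metric.ball y₀ r, ∀ mu : ℝ, 0 ≤ mu → mu ≤ lam → ∀ k ∈ C,
      y + mu • (y - k) ∈ C := by
  obtain ⟨L, hL, B, hB⟩ := bounded_mod hC hcl hsym
  obtain ⟨ε, hε, hball⟩ := Metric.isOpen_iff.1 isOpen_interior y₀ hy
  have hB0 : 0 ≤ B := by
    obtain ⟨l, -, hl⟩ := hB y₀ (interior_subset hy)
    exact (norm_nonneg _).trans hl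
  refine ⟨ε / 2, by positivity, (ε / 2) / (‖y₀‖ + ε / 2 + B + 1), by positivity, ?_⟩
  intro y hyb mu hmu0 hmu k hk
  obtain ⟨l, hlL, hl⟩ := hB k hk
  have hpos : 0 < ‖y₀‖ + ε / 2 + B + 1 := by positivity
  have h1 : y + mu • (y - (k - l)) ∈ C := by
    apply interior_subset
    apply hball
    rw [Metric.mem_ball, dist_eq_norm]
    have h2 : ‖y - y₀‖ < ε / 2 := by rwa [Metric.mem_ball, dist_eq_norm] at hyb
    have h3 : ‖y‖ ≤ ‖y₀‖ + ε / 2 := by
      have : ‖y‖ ≤ ‖y - y₀‖ + ‖y₀‖ := by simpa using norm_add_le (y - y₀) y₀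
      linarith
    have h4 : ‖y - (k - l)‖ ≤ ‖y₀‖ + ε / 2 + B := (norm_sub_le _ _).trans (by linarith)
    have h5 : ‖mu • (y - (k - l))‖ ≤ ε / 2 := by
      rw [norm_smul, Real.norm_of_nonneg hmu0]
      calc mu * ‖y - (k - l)‖ ≤ ((ε / 2) / (‖y₀‖ + ε / 2 + B + 1)) * (‖y₀‖ + ε / 2 + B + 1) := by
            apply mul_le_mul hmu (by linarith) (norm_nonneg _) (by positivity)
        _ = ε / 2 := by field_simp
    have h6 : y + mu • (y - (k - l)) - y₀ = (y - y₀) + mu • (y - (k - l)) := by abel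
    rw [h6]
    calc _ ≤ ‖y - y₀‖ + ‖mu • (y - (k - l))‖ := norm_add_le _ _
      _ < ε := by linarith
  have h7 : -(mu • l) ∈ rec C := by
    rw [← hL]
    exact L.neg_mem (L.smul_mem _ hlL)
  have h8 := h7 _ h1
  have h9 : y + mu • (y - (k - l)) + -(mu • l) = y + mu • (y - k) := by
    simp only [smul_sub]; abel
  rwa [h9] at h8

end conv

theorem affineEquiv_apply {Ev : Type*} [NormedAddCommGroup Ev] [InnerProductSpace ℝ Ev] [FiniteDimensional ℝ Ev] (A : Ev ≃ᵃ[ℝ] Ev) (z : Ev) :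
    A z = A.linear z + A 0 := by
  have := A.map_vadd 0 z
  simpa using this

theorem contDiff_affineEquiv {Ev : Type*} [NormedAddCommGroup Ev] [InnerProductSpace ℝ Ev] [FiniteDimensional ℝ Ev] (A : Ev ≃ᵃ[ℝ] Ev) : ContDiff ℝ ∞ (fun z => A z) := by
  have : (fun z => A z) = fun z => (LinearMap.toContinuousLinearMap (A.linear : Ev →ₗ[ℝ] Ev)) z + A 0 := by
    funext z
    rw [affineEquiv_apply A z]
    rfl
  rw [this]
  exact (ContinuousLinearMap.contDiff _).add contDiff_const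

theorem hasFDerivAt_affineEquiv {Ev : Type*} [NormedAddCommGroup Ev] [InnerProductSpace ℝ Ev] [FiniteDimensional ℝ Ev] (A : Ev ≃ᵃ[ℝ] Ev) (z : Ev) :
    HasFDerivAt (fun z => A z) (LinearMap.toContinuousLinearMap (A.linear : Ev →ₗ[ℝ] Ev)) z := by
  have : (fun z => A z) = fun z => (LinearMap.toContinuousLinearMap (A.linear : Ev →ₗ[ℝ] Ev)) z + A 0 := by
    funext z
    rw [affineEquiv_apply A z]
    rfl
  rw [this]
  exact (ContinuousLinearMap.hasFDerivAt _).add_const _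

variable {Ev : Type*} [NormedAddCommGroup Ev] [InnerProductSpace ℝ Ev] [FiniteDimensional ℝ Ev]
  {M X Γ : Type*} [TopologicalSpace M] [T2Space M] [CompactSpace M]
  [ChartedSpace Ev M] [IsManifold 𝓘(ℝ, Ev) ∞ M]
  [TopologicalSpace X] [Group Γ] [MulAction Γ X] [ContinuousConstSMul Γ X]
  {p : X → M} {D : X → Ev} {h : Γ →* (Ev ≃ᵃ[ℝ] Ev)}

omit [T2Space M] [CompactSpace M] in
/-- Comparison of the two affine charts around a point. -/
theorem linear_eq (hd : IsDeveloping p D h) (x₀ x y : X) (g : Γ) (A A₀ : Ev ≃ᵃ[ℝ] Ev)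
    (hA : ∀ᶠ z in 𝓝 x, D z = A (chartAt Ev (p x) (p z)))
    (hA₀ : ∀ᶠ z in 𝓝 y, D z = A₀ (chartAt Ev (p x₀) (p z)))
    (hxy : g • y = x) (hy : p y ∈ (chartAt Ev (p x₀)).source) (v : Ev) :
    A.linear v = (h g).linear (A₀.linear
      (tangentCoordChange 𝓘(ℝ, Ev) (p x) (p x₀) (p x) v)) := by
  have hpxy : p y = p x := (hd.fiber y x).2 ⟨g, hxy⟩
  -- near `x`
  have h1 : ∀ᶠ z in 𝓝 x, A (chartAt Ev (p x) (p z)) = h g (A₀ (chartAt Ev (p x₀) (p z))) := by
    have hcont : Tendsto (fun z => g⁻¹ • z) (𝓝 x) (𝓝 y) := by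
      have : y = g⁻¹ • x := by rw [← hxy, inv_smul_smul]
      rw [this]
      exact (continuous_const_smul g⁻¹).tendsto x
    filter_upwards [hA, hcont.eventually hA₀] with z hz1 hz2
    have e1 : D z = h g (D (g⁻¹ • z)) := by
      rw [← hd.equivariant, smul_inv_smul]
    have e2 : p (g⁻¹ • z) = p z := (hd.fiber _ _).2 ⟨g, by rw [smul_inv_smul]⟩
    rw [← hz1, e1, hz2, e2]
  have h2 : ∀ᶠ m in 𝓝 (p x), A (chartAt Ev (p x) m) = h g (A₀ (chartAt Ev (p x₀) m)) := by
    have := hd.isLocalHomeomorph.isOpenMap.nhds_le x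
    have h3 : {m | A (chartAt Ev (p x) m) = h g (A₀ (chartAt Ev (p x₀) m))} ∈ Filter.map p (𝓝 x) := h1
    exact this h3
  set I : ModelWithCorners ℝ Ev Ev := 𝓘(ℝ, Ev) with hI
  have hsrc : p x ∈ (extChartAt I (p x)).source ∩ (extChartAt I (p x₀)).source := by
    constructor
    · exact mem_extChartAt_source _
    · rw [extChartAt_source, ← hpxy]; exact hy
  have hder := hasFDerivWithinAt_tangentCoordChange (I := I) hsrc
  rw [ModelWithCorners.range_eq_univ, hasFDerivWithinAt_univ] at hder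
  have hder2 := (hasFDerivAt_affineEquiv (h g) _).comp _ ((hasFDerivAt_affineEquiv A₀ _).comp _ hder)
  have hder1 := hasFDerivAt_affineEquiv A (extChartAt I (p x) (p x))
  have hev : (fun u => A u) =ᶠ[𝓝 (extChartAt I (p x) (p x))]
      ((fun z => (h g) z) ∘ (fun z => A₀ z) ∘ (extChartAt I (p x₀) ∘ (extChartAt I (p x)).symm)) := by
    have hc : ContinuousAt (extChartAt I (p x)).symm (extChartAt I (p x) (p x)) :=
      continuousAt_extChartAt_symm (p x)
    have hc' : Tendsto (extChartAt I (p x)).symm (𝓝 (extChartAt I (p x) (p x))) (𝓝 (p x)) := by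
      have := hc.tendsto
      rwa [extChartAt_to_inv] at this
    have htgt : ∀ᶠ u in 𝓝 (extChartAt I (p x) (p x)), u ∈ (extChartAt I (p x)).target :=
      extChartAt_target_mem_nhds (p x)
    filter_upwards [hc'.eventually h2, htgt] with u hu1 hu2
    have e3 : chartAt Ev (p x) ((extChartAt I (p x)).symm u) = u := by
      have := (extChartAt I (p x)).right_inv hu2
      simpa [hI] using this
    rw [e3] at hu1
    simpa [hI] using hu1
  have huniq := (hder2.congr_of_eventuallyEq hev).unique hder1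
  have := congrArg (fun (L : Ev →L[ℝ] Ev) => L v) huniq
  exact this.symm

theorem lin_comb {Ev : Type*} [NormedAddCommGroup Ev] [InnerProductSpace ℝ Ev] [FiniteDimensional ℝ Ev] (L : Ev ≃ₗ[ℝ] Ev) (a b : ℝ) (v w : Ev) :
    L (a • v + b • w) = a • L v + b • L w := by
  rw [map_add, map_smul, map_smul]

/-- Core construction: an equivariant family of convex sets which locally contains
sections of the form `c ∘ D` with `c` smooth gives a global smooth vector field. -/
theorem exists_vectorField (hd : IsDeveloping p D h) (Q : X → Set Ev)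
    (hconv : ∀ x, Convex ℝ (Q x))
    (hequi : ∀ (g : Γ) (x : X), ∀ v ∈ Q x, (h g).linear v ∈ Q (g • x))
    (hzero : ∀ x, (0 : Ev) ∉ Q x)
    (hloc : ∀ x, ∃ c : Ev → Ev, ContDiff ℝ ∞ c ∧ ∀ᶠ y in 𝓝 x, c (D y) ∈ Q y) :
    ∃ v : Cₛ^∞⟮𝓘(ℝ, Ev); Ev, (TangentSpace 𝓘(ℝ, Ev) : M → Type _)⟯, ∀ m, v m ≠ 0 := by
  choose A hA using fun x => hd.affine (chartAt Ev (p x)) (chart_mem_atlas _ _) x
    (mem_chart_source _ _)
  set t : ∀ m : M, Set (TangentSpace 𝓘(ℝ, Ev) m) :=
    fun m => {v | ∀ x, p x = m → (A x).linear (v : Ev) ∈ Q x} with ht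
  have htconv : ∀ m, Convex ℝ (t m) := by
    intro m v hv w hw a b ha hb hab x hx
    have h1 := hconv x (hv x hx) (hw x hx) ha hb hab
    have h2 : (A x).linear ((a • v + b • w : TangentSpace 𝓘(ℝ, Ev) m) : Ev)
        = a • (A x).linear (v : Ev) + b • (A x).linear (w : Ev) := by
      exact lin_comb (A x).linear a b v w
    rw [h2]
    exact h1
  have Hloc : ∀ m₀ : M, ∃ U ∈ 𝓝 m₀, ∃ (s_loc : (m : M) → TangentSpace 𝓘(ℝ, Ev) m),
      (ContMDiffOn 𝓘(ℝ, Ev) (𝓘(ℝ, Ev).prod 𝓘(ℝ, Ev)) ((⊤ : ℕ∞) : ℕ∞ω)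
        (fun m => (⟨m, s_loc m⟩ : TotalSpace Ev (TangentSpace 𝓘(ℝ, Ev) : M → Type _))) U) ∧
      ∀ y ∈ U, s_loc y ∈ t y := by
    intro m₀
    obtain ⟨x₀, rfl⟩ := hd.surjective m₀
    obtain ⟨c, hc, hcQ⟩ := hloc x₀
    set e := trivializationAt Ev (TangentSpace 𝓘(ℝ, Ev) : M → Type _) (p x₀) with he
    have hcontp : ContinuousAt p x₀ := hd.isLocalHomeomorph.continuous.continuousAt
    have hsrc : ∀ᶠ y in 𝓝 x₀, p y ∈ (chartAt Ev (p x₀)).source :=
      hcontp.eventually ((chartAt Ev (p x₀)).open_source.mem_nhds (mem_chart_source _ _))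
    obtain ⟨V, hVsub, hVopen, hxV⟩ := mem_nhds_iff.1 ((hA x₀).and (hcQ.and hsrc))
    have hUopen : IsOpen (p '' V) := hd.isLocalHomeomorph.isOpenMap V hVopen
    set w : M → Ev := fun m => (A x₀).linear.symm (c (A x₀ (chartAt Ev (p x₀) m))) with hw
    have hUsub : p '' V ⊆ (chartAt Ev (p x₀)).source := by
      rintro _ ⟨y, hy, rfl⟩
      exact (hVsub hy).2.2
    refine ⟨p '' V, hUopen.mem_nhds ⟨x₀, hxV, rfl⟩, fun m => e.symm m (w m), ?_, ?_⟩
    · have hUsub' : p '' V ⊆ e.baseSet := by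
        rw [he, TangentBundle.trivializationAt_baseSet]
        exact hUsub
      have hwsm : ContMDiffOn 𝓘(ℝ, Ev) 𝓘(ℝ, Ev) ∞ w (p '' V) := by
        have h1 : ContDiff ℝ ∞ (fun z => (LinearMap.toContinuousLinearMap
            ((A x₀).linear.symm : Ev →ₗ[ℝ] Ev)) (c (A x₀ z))) :=
          (ContinuousLinearMap.contDiff _).comp (hc.comp (contDiff_affineEquiv (A x₀)))
        have h2 : ContMDiffOn 𝓘(ℝ, Ev) 𝓘(ℝ, Ev) ∞ (chartAt Ev (p x₀))
            (chartAt Ev (p x₀)).source := contMDiffOn_chart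
        exact h1.contMDiff.comp_contMDiffOn (h2.mono hUsub)
      refine (e.contMDiffOn_section_iff hUopen hUsub').2 (hwsm.congr ?_)
      intro m hm
      rw [e.apply_mk_symm (hUsub' hm)]
    · rintro m ⟨y, hy, rfl⟩ x hx
      obtain ⟨g, hg⟩ := (hd.fiber y x).1 hx.symm
      have hAx := hA x
      have hAy : ∀ᶠ z in 𝓝 y, D z = A x₀ (chartAt Ev (p x₀) (p z)) := by
        filter_upwards [hVopen.mem_nhds hy] with z hz
        exact (hVsub hz).1
      have hmem : p y ∈ (chartAt Ev (p x₀)).source := hUsub ⟨y, hy, rfl⟩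
      have hlin := linear_eq hd x₀ x y g (A x) (A x₀) hAx hAy hg hmem (e.symm (p y) (w (p y)))
      have hcoord : tangentCoordChange 𝓘(ℝ, Ev) (p x) (p x₀) (p x) (e.symm (p y) (w (p y)))
          = w (p y) := by
        have hb : p y ∈ e.baseSet := by
          rw [he, TangentBundle.trivializationAt_baseSet]
          exact hmem
        have h1 := e.apply_mk_symm hb (w (p y))
        have h2 := congrArg Prod.snd h1
        rw [hx]
        exact h2
      rw [hcoord] at hlin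
      have h3 := hequi g y _ (hVsub hy).2.1
      have h4 : (A x₀).linear (w (p y)) = c (D y) := by
        rw [hw]
        simp only
        rw [LinearEquiv.apply_symm_apply, (hVsub hy).1]
      rw [h4] at hlin
      rw [← hlin, hg] at h3
      exact h3

  obtain ⟨v, hv⟩ := exists_contMDiffSection_forall_mem_convex_of_local (n := (⊤ : ℕ∞))
    (F_fiber := Ev) 𝓘(ℝ, Ev) (TangentSpace 𝓘(ℝ, Ev) : M → Type _) t htconv Hloc
  refine ⟨v, fun m hm => ?_⟩
  obtain ⟨x, hx⟩ := hd.surjective m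
  have h1 := hv m x hx
  rw [hm] at h1
  have h2 : (A x).linear (0 : Ev) = 0 := map_zero _
  exact hzero x (h2 ▸ h1)

end

end Pool.Agent.Hhelper9.Chern
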