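import Pool.Agent.Hhelper9.Chern.Radiant

open Set Filter Topology Manifold Bundle
open scoped ContDiff

namespace Pool.Agent.Hhelper9.Chern

noncomputable section

variable {Ev : Type*} [NormedAddCommGroup Ev] [InnerProductSpace ℝ Ev] [FiniteDimensional ℝ Ev]
  {M X Γ : Type*} [TopologicalSpace M] [T2Space M] [CompactSpace M]
  [ChartedSpace Ev M] [IsManifold 𝓘(ℝ, Ev) ∞ M]
  [TopologicalSpace X] [Group Γ] [MulAction Γ X] [ContinuousConstSMul Γ X]
  {p : X → M} {D : X → Ev} {h : Γ →* (Ev ≃ᵃ[ℝ] Ev)}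

/-- The linear holonomy preserves a convex cone which is not a linear subspace. -/
theorem cone_case (hd : IsDeveloping p D h) (K : Set Ev) (hadd : ∀ v ∈ K, ∀ w ∈ K, v + w ∈ K)
    (hsmul : ∀ v ∈ K, ∀ t : ℝ, 0 < t → t • v ∈ K)
    (hinv : ∀ (g : Γ), ∀ v ∈ K, (h g).linear v ∈ K) (hne : ∃ v ∈ K, -v ∉ K) :
    ∃ v : Cₛ^∞⟮𝓘(ℝ, Ev); Ev, (TangentSpace 𝓘(ℝ, Ev) : M → Type _)⟯, ∀ m, v m ≠ 0 := by
  obtain ⟨v₀, hv₀, hv₀'⟩ := hne
  refine exists_vectorField hd (fun _ => {v | v ∈ K ∧ -v ∉ K}) ?_ ?_ ?_ ?_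
  · intro _ v hv w hw a b ha hb hab
    rcases ha.eq_or_lt with rfl | ha
    · have : b = 1 := by linarith
      subst this
      simpa using hw
    rcases hb.eq_or_lt with rfl | hb
    · have : a = 1 := by linarith
      subst this
      simpa using hv
    refine ⟨hadd _ (hsmul _ hv.1 a ha) _ (hsmul _ hw.1 b hb), fun hneg => hv.2 ?_⟩
    have h1 := hadd _ hneg _ (hsmul _ hw.1 b hb)
    have h2 : -(a • v + b • w) + b • w = a • (-v) := by rw [smul_neg]; abel
    rw [h2] at h1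
    have h3 := hsmul _ h1 a⁻¹ (inv_pos.2 ha)
    rwa [smul_smul, inv_mul_cancel₀ ha.ne', one_smul] at h3
  · intro g x v hv
    refine ⟨hinv g v hv.1, fun hneg => hv.2 ?_⟩
    have h1 := hinv g⁻¹ _ hneg
    have h2 : (h g⁻¹).linear (-(h g).linear v) = -v := by
      rw [map_neg]
      congr 1
      have h3 : ((h g⁻¹) * (h g)) = 1 := by rw [← map_mul, inv_mul_cancel, map_one]
      have h4 : (h g⁻¹ * h g).linear v = v := by rw [h3]; rfl
      exact h4
    rwa [h2] at h1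
  · intro _ hz
    exact hz.2 (by rw [neg_zero]; exact hz.1)
  · intro x
    exact ⟨fun _ => v₀, contDiff_const, Filter.Eventually.of_forall fun _ => ⟨hv₀, hv₀'⟩⟩

/-- A nonempty convex set invariant under the holonomy is disjoint from the developing image. -/
theorem disjoint_case (hd : IsDeveloping p D h) (Y : Set Ev) (hY : Convex ℝ Y)
    (hYn : Y.Nonempty) (hinv : ∀ (g : Γ), ∀ y ∈ Y, h g y ∈ Y) (hdis : Disjoint (range D) Y) :
    ∃ v : Cₛ^∞⟮𝓘(ℝ, Ev); Ev, (TangentSpace 𝓘(ℝ, Ev) : M → Type _)⟯, ∀ m, v m ≠ 0 := by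
  obtain ⟨y₀, hy₀⟩ := hYn
  refine exists_vectorField hd (fun x => {v | ∃ y ∈ Y, v = D x - y}) ?_ ?_ ?_ ?_
  · rintro x _ ⟨y₁, hy₁, rfl⟩ _ ⟨y₂, hy₂, rfl⟩ a b ha hb hab
    refine ⟨a • y₁ + b • y₂, hY hy₁ hy₂ ha hb hab, ?_⟩
    have : D x = (a + b) • D x := by rw [hab, one_smul]
    conv_rhs => rw [this]
    simp only [smul_sub, add_smul]
    abel
  · rintro g x _ ⟨y, hy, rfl⟩
    refine ⟨h g y, hinv g y hy, ?_⟩
    rw [hd.equivariant, affineEquiv_apply (h g) (D x), affineEquiv_apply (h g) y, map_sub]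
    abel
  · rintro x ⟨y, hy, hxy⟩
    have : D x = y := by rw [← sub_eq_zero]; exact hxy.symm
    exact Set.disjoint_left.1 hdis ⟨x, rfl⟩ (this ▸ hy)
  · intro x
    refine ⟨fun z => z - y₀, contDiff_id.sub contDiff_const, Filter.Eventually.of_forall ?_⟩
    exact fun y => ⟨y₀, hy₀, rfl⟩

omit [T2Space M] [IsManifold 𝓘(ℝ, Ev) ∞ M] [ContinuousConstSMul Γ X] in
/-- An invariant convex set with interior, bounded modulo its lineality space, bounds the
developing image in the same sense. -/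
theorem hull_ne_univ [Nonempty X] (hd : IsDeveloping p D h) (Y : Set Ev) (hY : Convex ℝ Y)
    (hinv : ∀ (g : Γ), ∀ y ∈ Y, h g y ∈ Y) (hint : (interior Y).Nonempty) (hne : Y ≠ univ)
    (hsym : ∀ v ∈ rec (closure Y), -v ∈ rec (closure Y)) : convexHull ℝ (range D) ≠ univ := by
  set C := closure Y with hC
  have hCconv : Convex ℝ C := hY.closure
  have hCne : C ≠ univ := closure_ne_univ hY hint hne
  have hCinv := closure_invariant hinv
  obtain ⟨y₀, hy₀⟩ := hint
  have hy₀' : y₀ ∈ interior C := interior_mono subset_closure hy₀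
  obtain ⟨r, hr, hball⟩ := Metric.isOpen_iff.1 isOpen_interior y₀ hy₀'
  have huni : ∃ a : ℝ, a > 0 ∧ ∀ x, ∃ c ∈ C, ∃ u ∈ C, ∃ w ∈ C, D x = c + a⁻¹ • (u - w) := by
    refine uniform hd (fun a x => ∃ c ∈ C, ∃ u ∈ C, ∃ w ∈ C, D x = c + a⁻¹ • (u - w)) ?_ ?_ ?_
    · rintro a b x hb hba ⟨c, hc, u, hu, w, hw, hx⟩
      have ha : 0 < a := lt_of_lt_of_le hb hba
      refine ⟨c, hc, (b / a) • u + (1 - b / a) • w, ?_, w, hw, ?_⟩
      · have h1 : b / a ≤ 1 := by rw [div_le_one ha]; exact hba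
        exact hCconv hu hw (by positivity) (by linarith) (by ring)
      · have h2 : (b / a) • u + (1 - b / a) • w - w = (b / a) • (u - w) := by
          rw [sub_smul, one_smul, smul_sub]; abel
        rw [h2, smul_smul, hx]
        congr 2
        field_simp
    · rintro a g x ⟨c, hc, u, hu, w, hw, hx⟩
      refine ⟨h g c, hCinv g c hc, h g u, hCinv g u hu, h g w, hCinv g w hw, ?_⟩
      rw [hd.equivariant, hx, affine_add, map_smul, map_sub]
      rw [affineEquiv_apply (h g) u, affineEquiv_apply (h g) w]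
      congr 2
      abel
    · intro x
      refine ⟨r / (‖D x - y₀‖ + 2), by positivity, ?_⟩
      have hcont : ContinuousAt D x := (isLocalHomeomorph_dev hd).continuous.continuousAt
      filter_upwards [hcont.eventually (Metric.ball_mem_nhds (D x) one_pos)] with y hy
      set b := r / (‖D x - y₀‖ + 2) with hb
      have hb0 : 0 < b := by positivity
      have hpos : 0 < ‖D x - y₀‖ + 2 := by positivity
      refine ⟨y₀, interior_subset hy₀', y₀ + b • (D y - y₀), ?_, y₀, interior_subset hy₀', ?_⟩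
      · apply interior_subset
        apply hball
        rw [Metric.mem_ball, dist_eq_norm, add_sub_cancel_left, norm_smul, Real.norm_of_nonneg hb0.le]
        rw [dist_eq_norm] at hy
        have h1 : ‖D y - y₀‖ ≤ ‖D y - D x‖ + ‖D x - y₀‖ := by
          have : D y - y₀ = (D y - D x) + (D x - y₀) := by abel
          rw [this]; exact norm_add_le _ _
        have h2 : ‖D y - y₀‖ < ‖D x - y₀‖ + 2 := by linarith
        calc b * ‖D y - y₀‖ < b * (‖D x - y₀‖ + 2) := mul_lt_mul_of_pos_left h2 hb0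
          _ = r := by rw [hb]; field_simp
      · rw [add_sub_cancel_left, smul_smul, inv_mul_cancel₀ hb0.ne', one_smul]
        abel
  obtain ⟨a, ha, hP⟩ := huni
  obtain ⟨L, hL, B, hB⟩ := bounded_mod hCconv isClosed_closure hsym
  intro huniv
  -- the hull is contained in a set bounded modulo `L`
  let G : Set Ev := {z | ∃ c ∈ C, ∃ u ∈ C, ∃ w ∈ C, z = c + a⁻¹ • (u - w)}
  have hG : Convex ℝ G := by
    rintro _ ⟨c₁, hc₁, u₁, hu₁, w₁, hw₁, rfl⟩ _ ⟨c₂, hc₂, u₂, hu₂, w₂, hw₂, rfl⟩ s t hs ht hst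
    refine ⟨s • c₁ + t • c₂, hCconv hc₁ hc₂ hs ht hst, s • u₁ + t • u₂, hCconv hu₁ hu₂ hs ht hst,
      s • w₁ + t • w₂, hCconv hw₁ hw₂ hs ht hst, ?_⟩
    simp only [smul_add, smul_sub, smul_smul]
    rw [mul_comm s, mul_comm t]
    abel
  have hsub : convexHull ℝ (range D) ⊆ G := by
    apply convexHull_min _ hG
    rintro _ ⟨x, rfl⟩
    exact hP x
  have hLtop : L ≠ ⊤ := by
    intro htop
    apply hCne
    refine eq_univ_of_forall fun z => ?_
    have h1 : z - y₀ ∈ rec C := (hL _).1 (by rw [htop]; trivial)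
    have h2 := h1 y₀ (interior_subset hy₀')
    simpa using h2
  have hLperp : Lᗮ ≠ ⊥ := by
    intro h1
    exact hLtop (Submodule.orthogonal_eq_bot_iff.1 h1)
  obtain ⟨u, huL, hu0⟩ := Submodule.exists_mem_ne_zero_of_ne_bot hLperp
  have hB0 : 0 ≤ B := by
    obtain ⟨l, -, hl⟩ := hB y₀ (interior_subset hy₀')
    exact (norm_nonneg _).trans hl
  set T : ℝ := (B + a⁻¹ * (2 * B) + 1) / ‖u‖ with hT
  have hun : 0 < ‖u‖ := norm_pos_iff.2 hu0
  have ha' : 0 < a⁻¹ := inv_pos.2 ha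
  have hT0 : 0 ≤ T := by positivity
  obtain ⟨c, hc, w, hw, w', hw', hz⟩ := hsub (huniv ▸ mem_univ (T • u))
  obtain ⟨l₁, hl₁, hb₁⟩ := hB c hc
  obtain ⟨l₂, hl₂, hb₂⟩ := hB w hw
  obtain ⟨l₃, hl₃, hb₃⟩ := hB w' hw'
  set l := l₁ + a⁻¹ • (l₂ - l₃) with hl
  have hlL : l ∈ L := L.add_mem hl₁ (L.smul_mem _ (L.sub_mem hl₂ hl₃))
  have h1 : ‖T • u - l‖ ≤ B + a⁻¹ * (2 * B) := by
    have h2 : T • u - l = (c - l₁) + a⁻¹ • ((w - l₂) - (w' - l₃)) := by
      rw [hz, hl]
      simp only [smul_sub]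
      abel
    rw [h2]
    refine (norm_add_le _ _).trans (add_le_add hb₁ ?_)
    rw [norm_smul, Real.norm_of_nonneg ha'.le]
    apply mul_le_mul_of_nonneg_left _ ha'.le
    exact (norm_sub_le _ _).trans (by linarith)
  have h3 : ‖T • u‖ ≤ ‖T • u - l‖ := by
    have horth : inner ℝ (T • u) l = 0 := by
      rw [inner_smul_left, Submodule.inner_left_of_mem_orthogonal hlL huL, mul_zero]
    have h4 : ‖T • u - l‖ * ‖T • u - l‖ = ‖T • u‖ * ‖T • u‖ + ‖l‖ * ‖l‖ :=
      norm_sub_sq_eq_norm_sq_add_norm_sq_real horth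
    have h5 := norm_nonneg (T • u - l)
    have h6 := norm_nonneg (T • u)
    nlinarith [mul_self_nonneg ‖l‖]
  rw [norm_smul, Real.norm_of_nonneg hT0, hT, div_mul_cancel₀ _ hun.ne'] at h3
  linarith

/-- The recession cone of an invariant convex set is not a linear subspace. -/
theorem rec_case (hd : IsDeveloping p D h) (Y : Set Ev) (hY : Convex ℝ Y)
    (hinv : ∀ (g : Γ), ∀ y ∈ Y, h g y ∈ Y)
    (hns : ¬ ∀ v ∈ rec (closure Y), -v ∈ rec (closure Y)) :
    ∃ v : Cₛ^∞⟮𝓘(ℝ, Ev); Ev, (TangentSpace 𝓘(ℝ, Ev) : M → Type _)⟯, ∀ m, v m ≠ 0 := by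
  push Not at hns
  exact cone_case hd (rec (closure Y)) (fun v hv w hw => rec_add hv hw)
    (fun v hv t ht => rec_smul hY.closure hv ht.le)
    (fun g v hv => rec_invariant (closure_invariant hinv) g hv) hns

omit [T2Space M] [CompactSpace M] [IsManifold 𝓘(ℝ, Ev) ∞ M] [ContinuousConstSMul Γ X] in
theorem hull_invariant (hd : IsDeveloping p D h) :
    ∀ (g : Γ), ∀ y ∈ convexHull ℝ (range D), h g y ∈ convexHull ℝ (range D) := by
  intro g y hy
  have h1 : (h g).toAffineMap '' (convexHull ℝ (range D)) =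
      convexHull ℝ ((h g).toAffineMap '' range D) := AffineMap.image_convexHull _ _
  have h2 : (h g).toAffineMap '' range D ⊆ range D := by
    rintro _ ⟨_, ⟨x, rfl⟩, rfl⟩
    exact ⟨g • x, hd.equivariant g x⟩
  have h3 : h g y ∈ (h g).toAffineMap '' (convexHull ℝ (range D)) := ⟨y, hy, rfl⟩
  rw [h1] at h3
  exact convexHull_mono h2 h3

/-- The convex hull of the developing image is not everything. -/
theorem hull_case [Nonempty X] (hd : IsDeveloping p D h)
    (hne : convexHull ℝ (range D) ≠ univ) :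
    ∃ v : Cₛ^∞⟮𝓘(ℝ, Ev); Ev, (TangentSpace 𝓘(ℝ, Ev) : M → Type _)⟯, ∀ m, v m ≠ 0 :=
  rec_case hd _ (convex_convexHull ℝ _) (hull_invariant hd) (fun hsym => hull_not_sym hd hne hsym)

/-- An invariant proper convex set with nonempty interior. -/
theorem interior_case [Nonempty X] (hd : IsDeveloping p D h) (Y : Set Ev) (hY : Convex ℝ Y)
    (hinv : ∀ (g : Γ), ∀ y ∈ Y, h g y ∈ Y) (hint : (interior Y).Nonempty) (hne : Y ≠ univ) :
    ∃ v : Cₛ^∞⟮𝓘(ℝ, Ev); Ev, (TangentSpace 𝓘(ℝ, Ev) : M → Type _)⟯, ∀ m, v m ≠ 0 := by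
  by_cases hsym : ∀ v ∈ rec (closure Y), -v ∈ rec (closure Y)
  · exact hull_case hd (hull_ne_univ hd Y hY hinv hint hne hsym)
  · exact rec_case hd Y hY hinv hsym

/-- An invariant nonempty convex set whose closure contains no line. -/
theorem noline_case [Nontrivial Ev] [T2Space X] (hd : IsDeveloping p D h) (Y : Set Ev)
    (hY : Convex ℝ Y) (hYn : Y.Nonempty) (hinv : ∀ (g : Γ), ∀ y ∈ Y, h g y ∈ Y)
    (hline : ¬ ∃ y v : Ev, v ≠ 0 ∧ ∀ t : ℝ, y + t • v ∈ closure Y) :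
    ∃ v : Cₛ^∞⟮𝓘(ℝ, Ev); Ev, (TangentSpace 𝓘(ℝ, Ev) : M → Type _)⟯, ∀ m, v m ≠ 0 := by
  by_cases hsym : ∀ v ∈ rec (closure Y), -v ∈ rec (closure Y)
  · obtain ⟨y₀, hy₀⟩ := hYn
    have hrec : ∀ v ∈ rec (closure Y), v = 0 := by
      intro v hv
      by_contra hv0
      apply hline
      refine ⟨y₀, v, hv0, fun t => ?_⟩
      rcases le_total 0 t with ht | ht
      · exact rec_smul hY.closure hv ht y₀ (subset_closure hy₀)
      · have := rec_smul hY.closure (hsym v hv) (t := -t) (by linarith) y₀ (subset_closure hy₀)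
        simpa using this
    obtain ⟨L, hL, B, hB⟩ := bounded_mod hY.closure isClosed_closure hsym
    have hbdd : Bornology.IsBounded (closure Y) := by
      rw [isBounded_iff_forall_norm_le]
      refine ⟨B, fun k hk => ?_⟩
      obtain ⟨l, hl, hb⟩ := hB k hk
      have : l = 0 := hrec l ((hL l).1 hl)
      simpa [this] using hb
    have hcomp : IsCompact (closure Y) := Metric.isCompact_of_isClosed_isBounded isClosed_closure hbdd
    obtain ⟨q, -, hq⟩ := exists_fixed h (closure Y) hcomp hY.closure ⟨y₀, subset_closure hy₀⟩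
      (closure_invariant hinv)
    refine disjoint_case hd {q} (convex_singleton q) ⟨q, rfl⟩ ?_ ?_
    · rintro g y rfl
      exact hq g
    · rw [Set.disjoint_singleton_right]
      exact radiance hd q hq
  · exact rec_case hd Y hY hinv hsym

end

end Pool.Agent.Hhelper9.Chern
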