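import Pool.Agent.Hhelper9.Chern.Basic

open Set Filter Topology Manifold Bundle
open scoped ContDiff

namespace Pool.Agent.Hhelper9.Chern

noncomputable section

theorem affine_continuous {Ev : Type*} [NormedAddCommGroup Ev] [InnerProductSpace ℝ Ev] [FiniteDimensional ℝ Ev] (A : Ev ≃ᵃ[ℝ] Ev) : Continuous A :=
  (contDiff_affineEquiv A).continuous

/-- An affine equivalence as a homeomorphism. -/
def affineHomeo {Ev : Type*} [NormedAddCommGroup Ev] [InnerProductSpace ℝ Ev] [FiniteDimensional ℝ Ev] (A : Ev ≃ᵃ[ℝ] Ev) : Ev ≃ₜ Ev where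
  toEquiv := A.toEquiv
  continuous_toFun := affine_continuous A
  continuous_invFun := affine_continuous A.symm

section action

variable {Ev : Type*} [NormedAddCommGroup Ev] [InnerProductSpace ℝ Ev] [FiniteDimensional ℝ Ev]
  {M X Γ : Type*} [TopologicalSpace M]
  [ChartedSpace Ev M]
  [TopologicalSpace X] [Group Γ] [MulAction Γ X]
  {p : X → M} {D : X → Ev} {h : Γ →* (Ev ≃ᵃ[ℝ] Ev)}

/-- The developing map is a local homeomorphism. -/
theorem isLocalHomeomorph_dev (hd : IsDeveloping p D h) : IsLocalHomeomorph D := by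
  refine IsLocalHomeomorph.mk D fun x => ?_
  obtain ⟨φ, hxφ, hφ⟩ := hd.isLocalHomeomorph x
  obtain ⟨A, hA⟩ := hd.affine (chartAt Ev (p x)) (chart_mem_atlas _ _) x (mem_chart_source _ _)
  obtain ⟨V, hVsub, hVopen, hxV⟩ := mem_nhds_iff.1 hA
  let ψ : OpenPartialHomeomorph X Ev :=
    ((φ.trans (chartAt Ev (p x))).trans
      (affineHomeo A).toOpenPartialHomeomorph)
  refine ⟨ψ.restrOpen V hVopen, ?_, ?_⟩
  · simp only [OpenPartialHomeomorph.restrOpen_source, mem_inter_iff]
    refine ⟨?_, hxV⟩
    simp only [ψ, OpenPartialHomeomorph.trans_source, Homeomorph.toOpenPartialHomeomorph_source,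
      preimage_univ, inter_univ, mem_inter_iff, mem_preimage]
    refine ⟨hxφ, ?_⟩
    rw [← hφ]
    exact mem_chart_source _ _
  · intro y hy
    simp only [OpenPartialHomeomorph.restrOpen_source, mem_inter_iff] at hy
    have h1 := hVsub hy.2
    have h2 : D y = A (chartAt Ev (p x) (p y)) := h1
    have h3 : p y = φ y := congrFun hφ y
    rw [h2, h3]
    rfl

/-- A locally uniform, invariant property is uniform, by compactness. -/
theorem uniform [CompactSpace M] (hd : IsDeveloping p D h) (P : ℝ → X → Prop)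
    (hmono : ∀ a b x, 0 < b → b ≤ a → P a x → P b x)
    (hinv : ∀ a (g : Γ) x, P a x → P a (g • x))
    (hloc : ∀ x, ∃ a > 0, ∀ᶠ y in 𝓝 x, P a y) : ∃ a > 0, ∀ x, P a x := by
  choose s hs using hd.surjective
  choose a ha hPa using fun m => hloc (s m)
  have hU : ∀ m, p '' {y | P (a m) y} ∈ 𝓝 m := by
    intro m
    have := hd.isLocalHomeomorph.isOpenMap.image_mem_nhds (hPa m)
    rwa [hs] at this
  obtain ⟨t, ht⟩ := CompactSpace.elim_nhds_subcover _ hU
  obtain ⟨b, hb, hbt⟩ : ∃ b > 0, ∀ m ∈ t, b ≤ a m := by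
    clear ht
    classical
    induction t using Finset.induction_on with
    | empty => exact ⟨1, one_pos, by simp⟩
    | insert m t hm ih =>
      obtain ⟨b, hb, hbt⟩ := ih
      refine ⟨min b (a m), lt_min hb (ha m), ?_⟩
      intro m' hm'
      rcases Finset.mem_insert.1 hm' with rfl | h
      · exact min_le_right _ _
      · exact (min_le_left _ _).trans (hbt _ h)
  refine ⟨b, hb, fun x => ?_⟩
  have hx : p x ∈ ⋃ m ∈ t, p '' {y | P (a m) y} := by rw [ht]; trivial
  simp only [mem_iUnion] at hx
  obtain ⟨m, hm, y, hy, hyx⟩ := hx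
  obtain ⟨g, rfl⟩ := (hd.fiber y x).1 hyx
  exact hmono _ _ _ hb (hbt m hm) (hinv _ _ _ hy)

theorem affine_comb (A : Ev ≃ᵃ[ℝ] Ev) (c : ℝ) (y k : Ev) :
    A (y + c • (y - k)) = A y + c • (A y - A k) := by
  rw [affineEquiv_apply A (y + c • (y - k)), affineEquiv_apply A y, affineEquiv_apply A k, map_add,
    map_smul, map_sub]
  have : A.linear y + A 0 - (A.linear k + A 0) = A.linear y - A.linear k := by abel
  rw [this]
  abel

theorem affine_add (A : Ev ≃ᵃ[ℝ] Ev) (y v : Ev) : A (y + v) = A y + A.linear v := by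
  rw [affineEquiv_apply A (y + v), affineEquiv_apply A y, map_add]
  abel

/-- invariance of the recession set -/
theorem rec_invariant {C : Set Ev} (hC : ∀ (g : Γ), ∀ y ∈ C, h g y ∈ C) (g : Γ) {v : Ev}
    (hv : v ∈ rec C) : (h g).linear v ∈ rec C := by
  intro y hy
  have h1 := hC g _ (hv _ (hC g⁻¹ y hy))
  rw [affine_add] at h1
  have h2 : h g (h g⁻¹ y) = y := by
    have : (h g * h g⁻¹) y = y := by rw [← map_mul, mul_inv_cancel, map_one]; rfl
    exact this
  rwa [h2] at h1

/-- `closure` of an invariant set is invariant -/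
theorem closure_invariant {C : Set Ev} (hC : ∀ (g : Γ), ∀ y ∈ C, h g y ∈ C) :
    ∀ (g : Γ), ∀ y ∈ closure C, h g y ∈ closure C := by
  intro g y hy
  exact map_mem_closure (affine_continuous (h g)) hy (fun a ha => hC g a ha)

theorem closure_ne_univ {Y : Set Ev} (hY : Convex ℝ Y) (hint : (interior Y).Nonempty)
    (hne : Y ≠ univ) : closure Y ≠ univ := by
  intro hcl
  apply hne
  have h1 := hY.interior_closure_eq_interior_of_nonempty_interior hint
  rw [hcl, interior_univ] at h1
  exact univ_subset_iff.1 (h1 ▸ interior_subset)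

/-- The convex hull of the developing image: its closure cannot have symmetric recession set,
unless it is everything. -/
theorem hull_not_sym [CompactSpace M] [Nonempty X] (hd : IsDeveloping p D h)
    (hne : convexHull ℝ (range D) ≠ univ)
    (hsym : ∀ v ∈ rec (closure (convexHull ℝ (range D))),
      -v ∈ rec (closure (convexHull ℝ (range D)))) : False := by
  set H := convexHull ℝ (range D) with hH
  set C := closure H with hC
  have hopen : IsOpen (range D) := (isLocalHomeomorph_dev hd).isOpenMap.isOpen_range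
  have hHopen : IsOpen H := hopen.convexHull
  have hDH : ∀ x, D x ∈ H := fun x => subset_convexHull ℝ _ (mem_range_self x)
  have hHint : (interior H).Nonempty := by
    rw [hHopen.interior_eq]
    exact ⟨D (Classical.arbitrary X), hDH _⟩
  have hHconv : Convex ℝ H := convex_convexHull ℝ _
  have hCne : C ≠ univ := closure_ne_univ hHconv hHint hne
  have hCconv : Convex ℝ C := hHconv.closure
  have hHinv : ∀ (g : Γ), ∀ y ∈ H, h g y ∈ H := by
    intro g y hy
    have h1 : (h g).toAffineMap '' H = convexHull ℝ ((h g).toAffineMap '' range D) :=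
      AffineMap.image_convexHull _ _
    have h2 : (h g).toAffineMap '' range D ⊆ range D := by
      rintro _ ⟨_, ⟨x, rfl⟩, rfl⟩
      exact ⟨g • x, hd.equivariant g x⟩
    have h3 : h g y ∈ (h g).toAffineMap '' H := ⟨y, hy, rfl⟩
    rw [h1] at h3
    exact convexHull_mono h2 h3
  have hCinv := closure_invariant hHinv
  -- uniform depth
  obtain ⟨a, ha, hP⟩ := uniform hd
    (fun a x => ∀ mu : ℝ, 0 ≤ mu → mu ≤ a → ∀ k ∈ C, D x + mu • (D x - k) ∈ C)
    (fun a b x _ hba hx mu h0 hmu => hx mu h0 (hmu.trans hba))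
    (by
      intro a g x hx mu h0 hmu k hk
      have h1 := hCinv g _ (hx mu h0 hmu (h g⁻¹ k) (hCinv g⁻¹ k hk))
      rw [affine_comb] at h1
      have h2 : h g (h g⁻¹ k) = k := by
        have : (h g * h g⁻¹) k = k := by rw [← map_mul, mul_inv_cancel, map_one]; rfl
        exact this
      rw [h2, ← hd.equivariant] at h1
      exact h1)
    (by
      intro x
      have hx : D x ∈ interior C := by
        apply interior_mono subset_closure
        rw [hHopen.interior_eq]; exact hDH x
      obtain ⟨r, hr, lam, hlam, hdep⟩ := depth hCconv isClosed_closure hsym hx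
      refine ⟨lam, hlam, ?_⟩
      have hcont : ContinuousAt D x := (isLocalHomeomorph_dev hd).continuous.continuousAt
      filter_upwards [hcont.eventually (Metric.ball_mem_nhds (D x) hr)] with y hy
      exact fun mu h0 hmu k hk => hdep (D y) hy mu h0 hmu k hk)
  -- all of C has the property
  have hall : ∀ y ∈ C, ∀ k ∈ C, y + a • (y - k) ∈ C := by
    intro y hy k hk
    let S : Set Ev := (fun y => y + a • (y - k)) ⁻¹' C
    have hS1 : Convex ℝ S := by
      intro y₁ h1 y₂ h2 s t hs ht hst
      have h3 := hCconv h1 h2 hs ht hst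
      have h4 : s • (y₁ + a • (y₁ - k)) + t • (y₂ + a • (y₂ - k))
          = (s • y₁ + t • y₂) + a • ((s • y₁ + t • y₂) - k) := by
        have : k = (s + t) • k := by rw [hst, one_smul]
        conv_rhs => rw [this]
        simp only [smul_add, smul_sub, add_smul, smul_smul]
        rw [mul_comm s a, mul_comm t a]
        abel
      simp only at h3
      rw [h4] at h3
      exact h3
    have hS2 : IsClosed S := isClosed_closure.preimage (by fun_prop)
    have hS3 : range D ⊆ S := by
      rintro _ ⟨x, rfl⟩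
      exact hP x a ha.le le_rfl k hk
    have hS4 : H ⊆ S := convexHull_min hS3 hS1
    have hS5 : C ⊆ S := closure_minimal hS4 hS2
    exact hS5 hy
  -- contradiction
  obtain ⟨z, hz⟩ : ∃ z, z ∉ C := by
    by_contra hcon
    push Not at hcon
    exact hCne (eq_univ_of_forall hcon)
  obtain ⟨y₀, hy₀⟩ := hHint
  have hy₀' : y₀ ∈ interior C := interior_mono subset_closure hy₀
  have hev : ∀ᶠ t : ℝ in 𝓝 0, y₀ + t • (z - y₀) ∈ C := by
    have hc : ContinuousAt (fun t : ℝ => y₀ + t • (z - y₀)) 0 := by fun_prop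
    apply hc.eventually
    simp only [zero_smul, add_zero]
    exact mem_interior_iff_mem_nhds.1 hy₀'
  obtain ⟨ε, hε, hεC⟩ : ∃ ε > 0, y₀ + (ε : ℝ) • (z - y₀) ∈ C := by
    obtain ⟨δ, hδ, hball⟩ := Metric.eventually_nhds_iff.1 hev
    refine ⟨δ / 2, by positivity, hball ?_⟩
    simp [abs_of_pos hδ, hδ]
  have hiter : ∀ m : ℕ, y₀ + ((1 + a) ^ m * ε) • (z - y₀) ∈ C := by
    intro m
    induction m with
    | zero => simpa using hεC
    | succ m ih =>
      have h1 := hall _ ih y₀ (interior_subset hy₀')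
      have h2 : y₀ + ((1 + a) ^ m * ε) • (z - y₀) + a • (y₀ + ((1 + a) ^ m * ε) • (z - y₀) - y₀)
          = y₀ + ((1 + a) ^ (m + 1) * ε) • (z - y₀) := by
        rw [add_sub_cancel_left, smul_smul, add_assoc, ← add_smul]
        congr 2
        ring
      rwa [h2] at h1
  obtain ⟨m, hm⟩ := pow_unbounded_of_one_lt (1 / ε) (show 1 < 1 + a by linarith)
  have hbig : 1 < (1 + a) ^ m * ε := by
    rw [div_lt_iff₀ hε] at hm
    exact hm
  apply hz
  have h1 := hCconv (interior_subset hy₀') (hiter m) (a := 1 - 1 / ((1 + a) ^ m * ε))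
    (b := 1 / ((1 + a) ^ m * ε)) (by
      have : 1 / ((1 + a) ^ m * ε) ≤ 1 := by
        rw [div_le_one (by linarith)]; exact hbig.le
      linarith) (by positivity) (by ring)
  have h2 : (1 - 1 / ((1 + a) ^ m * ε)) • y₀ + (1 / ((1 + a) ^ m * ε)) •
      (y₀ + ((1 + a) ^ m * ε) • (z - y₀)) = z := by
    have hne0 : (1 + a) ^ m * ε ≠ 0 := by linarith
    rw [smul_add, smul_smul, one_div, inv_mul_cancel₀ hne0, sub_smul, one_smul, one_smul]
    abel
  rwa [h2] at h1

end action

end

end Pool.Agent.Hhelper9.Chern
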