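import Pool.Agent.Hhelper9.Chern.Cases

/-!
# Closed affine manifolds with convexity in their affine holonomy

`IsDeveloping p D h` (file `Pool/Agent/Hhelper9/Chern/Basic.lean`) says that `(X, p, D, h)` are
developing data of the affine structure given by the atlas of the manifold `M`:
`p : X → M` is a surjective local homeomorphism whose fibres are the orbits of the group `Γ`,
`D : X → Ev` is the developing map (near every point of `X` it is, in every chart of the atlas of
`M`, an affine isomorphism composed with the chart) and `h` is the affine holonomy,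
`D (g • x) = h g (D x)`.  (The classical example: `X` is the universal cover, `Γ = π₁(M)`.)

Here `Ev` is a Euclidean space (a finite-dimensional real inner product space) of dimension `n ≥ 1`.
The theorem gives a nowhere vanishing smooth vector field on a closed affine manifold of positive
dimension as soon as one of the following holds:
* the convex hull of the developing image is not `Ev`;
* the affine holonomy preserves a nonempty convex set `Y ≠ Ev` which has nonempty interior, or is
  disjoint from the developing image, or whose closure contains no line;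
* the linear holonomy preserves a convex cone which is not a linear subspace.
-/

open Set Manifold
open scoped ContDiff
open Pool.Agent.Hhelper9.Chern

namespace Pool.Agent.Results.MP_1fa9a4_gt.ConvexHolonomy

variable {Ev : Type*} [NormedAddCommGroup Ev] [InnerProductSpace ℝ Ev] [FiniteDimensional ℝ Ev]

/-- The linear parts of the affine maps `h g` preserve a convex cone `K` (closed under addition and
multiplication by positive numbers) which is not a linear subspace: some `v ∈ K` has `-v ∉ K`. -/
def PreservesCone {Γ : Type*} [Group Γ] (h : Γ →* (Ev ≃ᵃ[ℝ] Ev)) : Prop :=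
  ∃ K : Set Ev, (∀ v ∈ K, ∀ w ∈ K, v + w ∈ K) ∧ (∀ v ∈ K, ∀ t : ℝ, 0 < t → t • v ∈ K) ∧
    (∀ (g : Γ), ∀ v ∈ K, linAct h g v ∈ K) ∧ ∃ v ∈ K, -v ∉ K

/-- `Y` is a nonempty convex set, different from the whole space, preserved by all `h g`. -/
def InvariantConvex {Γ : Type*} [Group Γ] (h : Γ →* (Ev ≃ᵃ[ℝ] Ev)) (Y : Set Ev) :
    Prop :=
  Y.Nonempty ∧ Convex ℝ Y ∧ Y ≠ univ ∧ ∀ (g : Γ), ∀ y ∈ Y, act h g y ∈ Y

/-- `C` contains no affine line. -/
def ContainsNoLine (C : Set Ev) : Prop :=
  ¬ ∃ y v : Ev, v ≠ 0 ∧ ∀ t : ℝ, y + t • v ∈ C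

/-- The type of `C^∞` sections of the tangent bundle (Mathlib's) of the manifold `M`. -/
abbrev SmoothVectorField (Ev : Type*) [NormedAddCommGroup Ev] [InnerProductSpace ℝ Ev]
    [FiniteDimensional ℝ Ev] (M : Type*) [TopologicalSpace M] [ChartedSpace Ev M]
    [IsManifold 𝓘(ℝ, Ev) ∞ M] : Type _ :=
  Cₛ^∞⟮𝓘(ℝ, Ev); Ev, (TangentSpace 𝓘(ℝ, Ev) : M → Type _)⟯

/-- The smooth manifold `M` has a nowhere vanishing `C^∞` vector field. -/
def HasNonvanishingField (Ev : Type*) [NormedAddCommGroup Ev] [InnerProductSpace ℝ Ev]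
    [FiniteDimensional ℝ Ev] (M : Type*) [TopologicalSpace M] [ChartedSpace Ev M]
    [IsManifold 𝓘(ℝ, Ev) ∞ M] : Prop :=
  ∃ v : SmoothVectorField Ev M, ∀ m, v m ≠ 0

theorem result [Nontrivial Ev] {M X Γ : Type*} [TopologicalSpace M] [T2Space M]
    [CompactSpace M] [ChartedSpace Ev M] [IsManifold 𝓘(ℝ, Ev) ∞ M]
    [TopologicalSpace X] [T2Space X] [Group Γ] [MulAction Γ X] [ContinuousConstSMul Γ X]
    (p : X → M) (D : X → Ev) (h : Γ →* (Ev ≃ᵃ[ℝ] Ev)) (hd : IsDeveloping p D h)
    (hcase : convexHull ℝ (range D) ≠ univ ∨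
      (∃ Y, InvariantConvex h Y ∧
        ((interior Y).Nonempty ∨ Disjoint (range D) Y ∨ ContainsNoLine (closure Y))) ∨
      PreservesCone h) :
    HasNonvanishingField Ev M := by
  rcases isEmpty_or_nonempty X with hX | hX
  · have hM : IsEmpty M := ⟨fun m => by
      obtain ⟨x, -⟩ := hd.surjective m
      exact hX.elim x⟩
    exact ⟨0, fun m => (hM.false m).elim⟩
  rcases hcase with hc | ⟨Y, ⟨hYn, hYc, hYu, hYi⟩, hY⟩ | ⟨K, hadd, hsmul, hinv, hne⟩
  · exact hull_case hd hc
  · rcases hY with hY | hY | hY
    · exact interior_case hd Y hYc hYi hY hYu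
    · exact disjoint_case hd Y hYc hYn hYi hY
    · exact noline_case hd Y hYc hYn hYi hY
  · exact cone_case hd K hadd hsmul hinv hne

end Pool.Agent.Results.MP_1fa9a4_gt.ConvexHolonomy
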