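import Pool.Agent.Hhelper9.Chern.Basic

open Set Filter Topology Manifold Bundle
open scoped ContDiff

namespace Pool.Agent.Hhelper9.Chern

noncomputable section

section topological

variable {M X Γ Z : Type*} [TopologicalSpace M] [TopologicalSpace X] [Group Γ] [MulAction Γ X]
  [ContinuousConstSMul Γ X] [TopologicalSpace Z] [MulAction Γ Z] [ContinuousConstSMul Γ Z]
  {p : X → M}

/-- A local section of `p` over an open set. -/
structure LocSec (p : X → M) where
  U : Set M
  s : M → X
  isOpen : IsOpen U
  image_open : ∀ V ⊆ U, IsOpen V → IsOpen (s '' V)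
  cont : ContinuousOn s U
  right : ∀ u ∈ U, p (s u) = u

theorem exists_locSec (hp : IsLocalHomeomorph p) (x : X) (V : Set X) (hV : V ∈ 𝓝 x) :
    ∃ σ : LocSec p, p x ∈ σ.U ∧ σ.s (p x) = x ∧ ∀ u ∈ σ.U, σ.s u ∈ V := by
  obtain ⟨φ, hx, hφ⟩ := hp x
  obtain ⟨V', hV'sub, hV'open, hxV'⟩ := mem_nhds_iff.1 hV
  let ψ := φ.restrOpen V' hV'open
  have hψx : x ∈ ψ.source := ⟨hx, hxV'⟩
  have hψp : ∀ y, ψ y = p y := fun y => by rw [hφ]; rfl
  refine ⟨⟨ψ.target, ψ.symm, ψ.open_target, ?_, ψ.continuousOn_symm, ?_⟩, ?_, ?_, ?_⟩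
  · intro W hW hWo
    exact ψ.symm.isOpen_image_of_subset_source hWo hW
  · intro u hu
    rw [← hψp]
    exact ψ.right_inv hu
  · change p x ∈ ψ.target
    rw [← hψp]
    exact ψ.map_source hψx
  · change ψ.symm (p x) = x
    rw [← hψp]
    exact ψ.left_inv hψx
  · intro u hu
    have : ψ.symm u ∈ ψ.source := ψ.map_target hu
    exact hV'sub this.2

/-- Near a point `g • s (p x)`, all points are of this form with the same `g`. -/
theorem LocSec.eventually (σ : LocSec p)
    (hfib : ∀ x y, p x = p y ↔ ∃ g : Γ, g • x = y) {x : X}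
    {g : Γ} (hx : p x ∈ σ.U) (hg : g • σ.s (p x) = x) :
    ∀ᶠ y in 𝓝 x, p y ∈ σ.U ∧ g • σ.s (p y) = y := by
  have hopen : IsOpen (σ.s '' σ.U) := σ.image_open _ Subset.rfl σ.isOpen
  have h1 : IsOpen ((fun y => g⁻¹ • y) ⁻¹' (σ.s '' σ.U)) :=
    hopen.preimage (continuous_const_smul _)
  have h2 : x ∈ ((fun y => g⁻¹ • y) ⁻¹' (σ.s '' σ.U)) := by
    refine ⟨p x, hx, ?_⟩
    simp only
    rw [eq_inv_smul_iff, hg]
  filter_upwards [h1.mem_nhds h2] with y hy
  obtain ⟨u, hu, huy⟩ := hy
  have h3 : p y = u := by
    rw [← σ.right u hu, huy]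
    exact (hfib _ _).2 ⟨g⁻¹, rfl⟩
  rw [h3]
  refine ⟨hu, ?_⟩
  rw [huy, smul_inv_smul]

omit [ContinuousConstSMul Γ X] in
theorem LocSec.exists_smul (σ : LocSec p) (hfib : ∀ x y, p x = p y ↔ ∃ g : Γ, g • x = y) {x : X}
    (hx : p x ∈ σ.U) : ∃ g : Γ, g • σ.s (p x) = x :=
  (hfib _ _).1 (σ.right _ hx)

omit [TopologicalSpace X] [ContinuousConstSMul Γ X] in
theorem free_unique (hfree : ∀ (g : Γ) (x : X), g • x = x → g = 1) {g g' : Γ} {y : X}
    (h : g • y = g' • y) : g = g' := by
  have h1 : (g'⁻¹ * g) • y = y := by rw [mul_smul, h, inv_smul_smul]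
  have h2 := hfree _ _ h1
  exact (inv_mul_eq_one.1 h2).symm

/-- Extension of equivariant maps into a contractible space (Dold). -/
theorem exists_equivariant [T2Space M] [CompactSpace M] [ContractibleSpace Z]
    (hp : IsLocalHomeomorph p) (hsurj : Function.Surjective p)
    (hfib : ∀ x y, p x = p y ↔ ∃ g : Γ, g • x = y)
    (hfree : ∀ (g : Γ) (x : X), g • x = x → g = 1) :
    ∃ f : X → Z, Continuous f ∧ ∀ (g : Γ) x, f (g • x) = g • f x := by
  classical
  have hpc : Continuous p := hp.continuous
  obtain ⟨z₀, ⟨H⟩⟩ := id_nullhomotopic Z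
  -- finite cover by local sections
  choose x₀ hx₀ using hsurj
  have hσ : ∀ m : M, ∃ σ : LocSec p, m ∈ σ.U := by
    intro m
    obtain ⟨σ, h1, -, -⟩ := exists_locSec hp (x₀ m) univ univ_mem
    exact ⟨σ, by rwa [hx₀] at h1⟩
  choose σ hσm using hσ
  have key : ∀ t : Finset M, ∀ C : Set M, IsClosed C → C ⊆ (⋃ m ∈ t, (σ m).U) →
      ∃ W : Set M, IsOpen W ∧ C ⊆ W ∧ ∃ f : X → Z, ContinuousOn f (p ⁻¹' W) ∧
        ∀ x, p x ∈ W → ∀ g : Γ, f (g • x) = g • f x := by
    intro t
    induction t using Finset.induction_on with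
    | empty =>
      intro C _ hC
      have hC' : C = ∅ := by simpa using hC
      exact ⟨∅, isOpen_empty, by rw [hC'], fun _ => z₀, by simp, by simp⟩
    | insert m t hm ih =>
      intro C hCcl hC
      set U := (σ m).U with hU
      set s := (σ m).s with hs
      have hUo : IsOpen U := (σ m).isOpen
      set R : Set M := ⋃ k ∈ t, (σ k).U with hR
      have hRo : IsOpen R := isOpen_biUnion fun k _ => (σ k).isOpen
      have hC1 : IsClosed (C \ U) := hCcl.sdiff hUo
      have hC1R : C \ U ⊆ R := by
        rintro u ⟨hu, hu'⟩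
        have := hC hu
        rw [Finset.set_biUnion_insert] at this
        exact this.resolve_left hu'
      obtain ⟨O, hOo, hC1O, hOR⟩ := normal_exists_closure_subset hC1 hRo hC1R
      obtain ⟨O', hO'o, hC1O', hO'O⟩ := normal_exists_closure_subset hC1 hOo hC1O
      obtain ⟨W, hWo, hOW, f, hf, hfe⟩ := ih (closure O) isClosed_closure hOR
      obtain ⟨τ, hτ0, hτ1, hτ⟩ := exists_continuous_zero_one_of_isClosed
        (isClosed_closure (s := O')) hOo.isClosed_compl
        (by
          rw [Set.disjoint_compl_right_iff_subset]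
          exact hO'O)
      let τ' : M → unitInterval := fun u => ⟨τ u, hτ u⟩
      have hτ'c : Continuous τ' := Continuous.subtype_mk τ.continuous _
      let F : M → Z := fun u => if u ∈ W then H (τ' u, f (s u)) else z₀
      have hF1 : ∀ u, u ∉ O → F u = z₀ := by
        intro u hu
        have h1 : τ u = 1 := hτ1 hu
        have h2 : τ' u = 1 := Subtype.ext h1
        by_cases huW : u ∈ W
        · simp only [F, if_pos huW, h2]
          exact H.apply_one _
        · simp only [F, if_neg huW]
      have hFc : ContinuousOn F U := by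
        intro u hu
        by_cases huO : u ∈ closure O
        · have huW := hOW huO
          have h1 : F =ᶠ[𝓝 u] fun u => H (τ' u, f (s u)) := by
            filter_upwards [hWo.mem_nhds huW] with v hv
            simp only [F, if_pos hv]
          apply ContinuousAt.continuousWithinAt
          refine ContinuousAt.congr ?_ h1.symm
          have h2 : ContinuousAt s u := ((σ m).cont u hu).continuousAt (hUo.mem_nhds hu)
          have h3 : ContinuousAt f (s u) := by
            have : s u ∈ p ⁻¹' W := by
              change p (s u) ∈ W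
              rw [(σ m).right u hu]; exact huW
            exact (hf _ this).continuousAt ((hWo.preimage hpc).mem_nhds this)
          have h4 : ContinuousAt (fun v => f (s v)) u := ContinuousAt.comp (f := s) h3 h2
          exact H.continuous.continuousAt.comp (hτ'c.continuousAt.prodMk h4)
        · have h1 : F =ᶠ[𝓝 u] fun _ => z₀ := by
            filter_upwards [isClosed_closure.isOpen_compl.mem_nhds huO] with v hv
            exact hF1 v (fun h => hv (subset_closure h))
          apply ContinuousAt.continuousWithinAt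
          exact ContinuousAt.congr continuousAt_const h1.symm
      have hG : ∀ x, ∃ g : Γ, p x ∈ U → g • s (p x) = x := by
        intro x
        by_cases hx : p x ∈ U
        · obtain ⟨g, hg⟩ := (σ m).exists_smul hfib hx
          exact ⟨g, fun _ => hg⟩
        · exact ⟨1, fun h => absurd h hx⟩
      choose G hG using hG
      let f' : X → Z := fun x => if p x ∈ U then G x • F (p x) else f x
      -- on `O'` nothing changes
      have hsame : ∀ x, p x ∈ O' → f' x = f x := by
        intro x hx
        by_cases hxU : p x ∈ U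
        · have h0 : τ (p x) = 0 := hτ0 (subset_closure hx)
          have h0' : τ' (p x) = 0 := Subtype.ext h0
          have hxW : p x ∈ W := hOW (subset_closure (hO'O (subset_closure hx)))
          have h1 : F (p x) = f (s (p x)) := by
            simp only [F, if_pos hxW, h0']
            exact H.apply_zero _
          simp only [f', if_pos hxU, h1]
          have h2 : p (s (p x)) ∈ W := by rw [(σ m).right _ hxU]; exact hxW
          rw [← hfe _ h2, hG x hxU]
        · simp only [f', if_neg hxU]
      refine ⟨O' ∪ U, hO'o.union hUo, ?_, f', ?_, ?_⟩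
      · intro u hu
        by_cases huU : u ∈ U
        · exact Or.inr huU
        · exact Or.inl (hC1O' ⟨hu, huU⟩)
      · intro x hx
        apply ContinuousAt.continuousWithinAt
        by_cases hxU : p x ∈ U
        · have hev := (σ m).eventually hfib hxU (hG x hxU)
          have h1 : f' =ᶠ[𝓝 x] fun y => G x • F (p y) := by
            filter_upwards [hev] with y hy
            have h2 : G y = G x := by
              apply free_unique hfree (y := s (p y))
              rw [hG y hy.1]
              exact hy.2.symm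
            simp only [f']
            rw [if_pos hy.1, h2]
          refine ContinuousAt.congr ?_ h1.symm
          have h3 : ContinuousAt F (p x) := (hFc _ hxU).continuousAt (hUo.mem_nhds hxU)
          have h4 : ContinuousAt (fun y => F (p y)) x := ContinuousAt.comp (f := p) h3 hpc.continuousAt
          exact (continuous_const_smul (G x)).continuousAt.comp h4
        · have hxO : p x ∈ O' := hx.resolve_right hxU
          have h1 : f' =ᶠ[𝓝 x] f := by
            filter_upwards [(hO'o.preimage hpc).mem_nhds hxO] with y hy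
            exact hsame y hy
          refine ContinuousAt.congr ?_ h1.symm
          have : x ∈ p ⁻¹' W := hOW (subset_closure (hO'O (subset_closure hxO)))
          exact (hf _ this).continuousAt ((hWo.preimage hpc).mem_nhds this)
      · intro x hx g
        have hpg : p (g • x) = p x := ((hfib x (g • x)).2 ⟨g, rfl⟩).symm
        by_cases hxU : p x ∈ U
        · have hgU : p (g • x) ∈ U := by rw [hpg]; exact hxU
          have h2 : G (g • x) = g * G x := by
            apply free_unique hfree (y := s (p x))
            have := hG (g • x) hgU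
            rw [hpg] at this
            rw [this, mul_smul, hG x hxU]
          simp only [f']
          rw [if_pos hgU, if_pos hxU, h2, hpg, mul_smul]
        · have hxO : p x ∈ O' := hx.resolve_right hxU
          have hgO : p (g • x) ∈ O' := by rw [hpg]; exact hxO
          rw [hsame _ hxO, hsame _ hgO]
          exact hfe x (hOW (subset_closure (hO'O (subset_closure hxO)))) g
  obtain ⟨t, ht⟩ := CompactSpace.elim_nhds_subcover (fun m => (σ m).U)
    (fun m => (σ m).isOpen.mem_nhds (hσm m))
  obtain ⟨W, -, hW, f, hf, hfe⟩ := key t univ isClosed_univ (by rw [ht]; exact Subset.rfl)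
  have hWu : W = univ := univ_subset_iff.1 hW
  subst hWu
  refine ⟨f, ?_, fun g x => hfe x (mem_univ _) g⟩
  rw [← continuousOn_univ]
  simpa using hf

end topological

section field

variable {Ev : Type*} [NormedAddCommGroup Ev] [InnerProductSpace ℝ Ev] [FiniteDimensional ℝ Ev]
  {M X Γ : Type*} [TopologicalSpace M] [T2Space M] [CompactSpace M]
  [ChartedSpace Ev M] [IsManifold 𝓘(ℝ, Ev) ∞ M]
  [TopologicalSpace X] [Group Γ] [MulAction Γ X] [ContinuousConstSMul Γ X]
  {p : X → M} {D : X → Ev} {h : Γ →* (Ev ≃ᵃ[ℝ] Ev)}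

theorem linear_mul (g g' : Γ) (v : Ev) :
    (h (g * g')).linear v = (h g).linear ((h g').linear v) := by
  rw [map_mul]
  rfl

theorem linear_inv_apply (g : Γ) (v : Ev) : (h g⁻¹).linear ((h g).linear v) = v := by
  rw [← linear_mul, inv_mul_cancel, map_one]
  rfl

theorem linear_apply_inv (g : Γ) (v : Ev) : (h g).linear ((h g⁻¹).linear v) = v := by
  rw [← linear_mul, mul_inv_cancel, map_one]
  rfl

/-- A continuous equivariant nowhere zero field on `X` gives a smooth one on `M`. -/
theorem smooth_of_continuous (hd : IsDeveloping p D h)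
    (hfree : ∀ (g : Γ) (x : X), g • x = x → g = 1) (u : X → Ev) (hu : Continuous u)
    (hue : ∀ (g : Γ) x, u (g • x) = (h g).linear (u x)) (hu0 : ∀ x, u x ≠ 0) :
    ∃ v : Cₛ^∞⟮𝓘(ℝ, Ev); Ev, (TangentSpace 𝓘(ℝ, Ev) : M → Type _)⟯, ∀ m, v m ≠ 0 := by
  classical
  have hp := hd.isLocalHomeomorph
  have hpc : Continuous p := hp.continuous
  have hfib := hd.fiber
  choose x₀ hx₀ using hd.surjective
  have hσ : ∀ m : M, ∃ σ : LocSec p, m ∈ σ.U ∧ ∀ w ∈ σ.U, 0 < inner ℝ (u (x₀ m)) (u (σ.s w)) := by
    intro m
    have hV : {y : X | 0 < inner ℝ (u (x₀ m)) (u y)} ∈ 𝓝 (x₀ m) := by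
      apply IsOpen.mem_nhds
      · exact isOpen_lt continuous_const (continuous_const.inner hu)
      · simp only [mem_setOf_eq, real_inner_self_eq_norm_sq]
        have := norm_pos_iff.2 (hu0 (x₀ m))
        positivity
    obtain ⟨σ, h1, -, h3⟩ := exists_locSec hp (x₀ m) _ hV
    exact ⟨σ, by rwa [hx₀] at h1, h3⟩
  choose σ hσm hσu using hσ
  -- closed shrinking
  have hK : ∀ m : M, ∃ O : Set M, IsOpen O ∧ m ∈ O ∧ closure O ⊆ (σ m).U := by
    intro m
    obtain ⟨O, h1, h2, h3⟩ := normal_exists_closure_subset (isClosed_singleton (x := m))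
      (σ m).isOpen (singleton_subset_iff.2 (hσm m))
    exact ⟨O, h1, singleton_subset_iff.1 h2, h3⟩
  choose O hOo hOm hOU using hK
  obtain ⟨t, ht⟩ := CompactSpace.elim_nhds_subcover O (fun m => (hOo m).mem_nhds (hOm m))
  let Q : X → Set Ev := fun x => {v | ∀ m ∈ t, p x ∈ closure (O m) → ∀ g : Γ,
    g • (σ m).s (p x) = x → 0 < inner ℝ (u (x₀ m)) ((h g⁻¹).linear v)}
  refine exists_vectorField hd Q ?_ ?_ ?_ ?_
  · intro x v hv w hw a b ha hb hab m hm hx g hg
    have h1 := hv m hm hx g hg
    have h2 := hw m hm hx g hg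
    rw [lin_comb, inner_add_right, inner_smul_right, inner_smul_right]
    rcases eq_or_lt_of_le ha with ha0 | ha0
    · have hb1 : b = 1 := by linarith
      rw [← ha0, hb1]
      linarith
    · have := mul_pos ha0 h1
      have := mul_nonneg hb h2.le
      linarith
  · intro g x v hv m hm hx g' hg'
    have hpg : p (g • x) = p x := ((hfib x (g • x)).2 ⟨g, rfl⟩).symm
    rw [hpg] at hx hg'
    have h1 := hv m hm hx (g⁻¹ * g') (by rw [mul_smul, hg', inv_smul_smul])
    have h2 : (g⁻¹ * g')⁻¹ = g'⁻¹ * g := by rw [mul_inv_rev, inv_inv]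
    rw [h2, linear_mul] at h1
    exact h1
  · intro x h0
    have hx : p x ∈ ⋃ m ∈ t, O m := by rw [ht]; trivial
    simp only [mem_iUnion] at hx
    obtain ⟨m, hm, hxO⟩ := hx
    obtain ⟨g, hg⟩ := (σ m).exists_smul hfib (hOU m (subset_closure hxO))
    have := h0 m hm (subset_closure hxO) g hg
    rw [map_zero, inner_zero_right] at this
    exact lt_irrefl _ this
  · intro x
    refine ⟨fun _ => u x, contDiff_const, ?_⟩
    have hfin : ∀ m ∈ t, ∀ᶠ y in 𝓝 x, p y ∈ closure (O m) → ∀ g : Γ,
        g • (σ m).s (p y) = y → 0 < inner ℝ (u (x₀ m)) ((h g⁻¹).linear (u x)) := by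
      intro m _
      by_cases hx : p x ∈ closure (O m)
      · obtain ⟨g, hg⟩ := (σ m).exists_smul hfib (hOU m hx)
        filter_upwards [(σ m).eventually hfib (hOU m hx) hg] with y hy _ g' hg'
        have h1 : g' = g := free_unique hfree (y := (σ m).s (p y)) (by rw [hg', hy.2])
        have h2 : (h g⁻¹).linear (u x) = u ((σ m).s (p x)) := by
          rw [← hue]
          congr 1
          rw [inv_smul_eq_iff]
          exact hg.symm
        rw [h1, h2]
        exact hσu m _ (hOU m hx)
      · filter_upwards [(isClosed_closure.isOpen_compl.preimage hpc).mem_nhds hx] with y hy hy'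
        exact absurd hy' hy
    have := (Filter.eventually_all_finset t).2 hfin
    filter_upwards [this] with y hy
    exact hy

end field

end

end Pool.Agent.Hhelper9.Chern
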