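import Pool.Agent.Hhelper9.Chern.Conv

open Set Filter Topology Manifold Bundle
open scoped ContDiff

namespace Pool.Agent.Hhelper9.Chern

noncomputable section

/-- A group of affine automorphisms preserving a nonempty compact convex set has a fixed point. -/
theorem exists_fixed {Ev : Type*} [NormedAddCommGroup Ev] [InnerProductSpace ℝ Ev] [FiniteDimensional ℝ Ev] {Γ : Type*} [Group Γ] (h : Γ →* (Ev ≃ᵃ[ℝ] Ev)) (K : Set Ev)
    (hK : IsCompact K) (hKc : Convex ℝ K) (hKn : K.Nonempty)
    (hKi : ∀ (g : Γ), ∀ y ∈ K, h g y ∈ K) : ∃ q ∈ K, ∀ g, h g q = q := by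
  let S : Set (Set Ev) :=
    {C | IsCompact C ∧ Convex ℝ C ∧ C.Nonempty ∧ ∀ (g : Γ), ∀ y ∈ C, h g y ∈ C}
  obtain ⟨m, hmK, hmin⟩ := zorn_superset_nonempty S (by
    intro c hc hchain hcne
    refine ⟨⋂₀ c, ⟨?_, ?_, ?_, ?_⟩, fun s hs => sInter_subset_of_mem hs⟩
    · obtain ⟨s, hs⟩ := hcne
      exact (hc hs).1.of_isClosed_subset
        (isClosed_sInter fun t ht => (hc ht).1.isClosed) (sInter_subset_of_mem hs)
    · exact convex_sInter fun t ht => (hc ht).2.1
    · have : Nonempty c := hcne.to_subtype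
      have hdir : DirectedOn (· ⊇ ·) c := by
        intro s hs t ht
        rcases hchain.total hs ht with h1 | h1
        · exact ⟨s, hs, Subset.rfl, h1⟩
        · exact ⟨t, ht, h1, Subset.rfl⟩
      refine IsCompact.nonempty_sInter_of_directed_nonempty_isCompact_isClosed
        hdir (fun t ht => (hc ht).2.2.1) (fun t ht => (hc ht).1)
        (fun t ht => (hc ht).1.isClosed)
    · intro g y hy t ht
      exact (hc ht).2.2.2 g y (hy t ht)) K ⟨hK, hKc, hKn, hKi⟩
  obtain ⟨hmc, hmconv, hmne, hminv⟩ := hmin.prop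
  -- shrink
  set n : ℕ := Module.finrank ℝ Ev with hn
  set lam : ℝ := 1 / ((n : ℝ) + 1) with hlam
  have hlam0 : 0 < lam := by positivity
  let F : m → Set Ev := fun k => {y | y ∈ m ∧ y + lam • (y - (k : Ev)) ∈ m}
  have hF1 : ∀ k, Convex ℝ (F k) := by
    intro k y₁ h1 y₂ h2 s t hs ht hst
    refine ⟨hmconv h1.1 h2.1 hs ht hst, ?_⟩
    have h3 := hmconv h1.2 h2.2 hs ht hst
    have h4 : s • (y₁ + lam • (y₁ - (k : Ev))) + t • (y₂ + lam • (y₂ - (k : Ev)))
        = (s • y₁ + t • y₂) + lam • ((s • y₁ + t • y₂) - (k : Ev)) := by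
      have : (k : Ev) = (s + t) • (k : Ev) := by rw [hst, one_smul]
      conv_rhs => rw [this]
      simp only [smul_add, smul_sub, add_smul, smul_smul]
      rw [mul_comm s lam, mul_comm t lam]
      abel
    rwa [h4] at h3
  have hF2 : ∀ k, IsCompact (F k) := by
    intro k
    have : F k = m ∩ (fun y => y + lam • (y - (k : Ev))) ⁻¹' m := rfl
    rw [this]
    exact hmc.inter_right (hmc.isClosed.preimage (by fun_prop))
  have hF3 : (⋂ k, F k).Nonempty := by
    refine Convex.helly_theorem_compact' (𝕜 := ℝ) hF1 hF2 ?_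
    intro I hI
    rcases I.eq_empty_or_nonempty with rfl | hIne
    · simp
    have hj0 : (0 : ℝ) < I.card := by exact_mod_cast hIne.card_pos
    have hjn : (I.card : ℝ) ≤ n + 1 := by exact_mod_cast hI
    refine ⟨∑ i ∈ I, (1 / (I.card : ℝ)) • (i : Ev), ?_⟩
    simp only [mem_iInter]
    intro k hk
    have hsum1 : ∑ _i ∈ I, (1 / (I.card : ℝ)) = 1 := by
      rw [Finset.sum_const, nsmul_eq_mul]; field_simp
    refine ⟨hmconv.sum_mem (fun i _ => by positivity) hsum1 (fun i _ => i.2), ?_⟩
    classical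
    have h1 : (∑ i ∈ I, (1 / (I.card : ℝ)) • (i : Ev)) +
        lam • ((∑ i ∈ I, (1 / (I.card : ℝ)) • (i : Ev)) - (k : Ev))
        = ∑ i ∈ I, ((1 + lam) / I.card - if i = k then lam else 0) • (i : Ev) := by
      have h2 : ∑ i ∈ I, ((1 + lam) / I.card - if i = k then lam else 0) • (i : Ev)
        = (1 + lam) • (∑ i ∈ I, (1 / (I.card : ℝ)) • (i : Ev)) - lam • (k : Ev) := by
        simp only [sub_smul, Finset.sum_sub_distrib]
        congr 1
        · rw [Finset.smul_sum]
          refine Finset.sum_congr rfl fun i _ => ?_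
          rw [smul_smul]; congr 1; ring
        · rw [Finset.sum_eq_single_of_mem k hk]
          · simp
          · intro b _ hb; simp [hb]
      rw [h2, smul_sub, add_smul, one_smul]
      abel
    rw [h1]
    apply hmconv.sum_mem
    · intro i _
      have h3 : lam ≤ (1 + lam) / I.card := by
        rw [le_div_iff₀ hj0]
        calc lam * I.card ≤ lam * (n + 1) := mul_le_mul_of_nonneg_left hjn hlam0.le
          _ = 1 := by rw [hlam]; field_simp
          _ ≤ 1 + lam := by linarith
      split_ifs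
      · linarith
      · have : 0 ≤ (1 + lam) / I.card := by positivity
        linarith
    · rw [Finset.sum_sub_distrib, Finset.sum_const, nsmul_eq_mul,
        Finset.sum_eq_single_of_mem k hk]
      · simp; field_simp; ring
      · intro b _ hb; simp [hb]
    · intro i _; exact i.2
  -- minimality
  have hmem : (⋂ k, F k) ∈ S := by
    obtain ⟨k₀, hk₀⟩ := hmne
    refine ⟨?_, convex_iInter hF1, hF3, ?_⟩
    · exact (hF2 ⟨k₀, hk₀⟩).of_isClosed_subset (isClosed_iInter fun k => (hF2 k).isClosed)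
        (iInter_subset _ _)
    · intro g y hy
      simp only [mem_iInter] at hy ⊢
      intro k
      refine ⟨hminv g y (hy k).1, ?_⟩
      have h1 := hminv g _ (hy ⟨h g⁻¹ k, hminv g⁻¹ k k.2⟩).2
      rw [affine_comb] at h1
      have h2 : h g (h g⁻¹ (k : Ev)) = k := by
        have : (h g * h g⁻¹) (k : Ev) = k := by rw [← map_mul, mul_inv_cancel, map_one]; rfl
        exact this
      simp only [h2] at h1
      exact h1
  have hsub : (⋂ k, F k) ⊆ m := by
    intro y hy
    obtain ⟨k₀, hk₀⟩ := hmne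
    exact (mem_iInter.1 hy ⟨k₀, hk₀⟩).1
  have heq : m ⊆ ⋂ k, F k := hmin.le_of_le hmem hsub
  obtain ⟨q, hq⟩ := hmne
  have hsing : ∀ b ∈ m, b = q := by
    intro b hb
    by_contra hbq
    -- iterate away from `q`
    have hiter : ∀ j : ℕ, q + ((1 + lam) ^ j) • (b - q) ∈ m := by
      intro j
      induction j with
      | zero => simpa using hb
      | succ j ih =>
        have h1 := (mem_iInter.1 (heq ih) ⟨q, hq⟩).2
        have h2 : q + ((1 + lam) ^ j) • (b - q) + lam • (q + ((1 + lam) ^ j) • (b - q) - q)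
            = q + ((1 + lam) ^ (j + 1)) • (b - q) := by
          rw [add_sub_cancel_left, smul_smul, add_assoc, ← add_smul]
          congr 2
          ring
        simp only [h2] at h1
        exact h1
    obtain ⟨R, hR⟩ := hmc.isBounded.exists_norm_le
    have hbq0 : 0 < ‖b - q‖ := norm_pos_iff.2 (sub_ne_zero.2 hbq)
    obtain ⟨j, hj⟩ := pow_unbounded_of_one_lt ((R + ‖q‖) / ‖b - q‖) (show 1 < 1 + lam by linarith)
    have h3 := hR _ (hiter j)
    have h4 : ‖((1 + lam) ^ j) • (b - q)‖ ≤ R + ‖q‖ := by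
      have : ((1 + lam) ^ j) • (b - q) = (q + ((1 + lam) ^ j) • (b - q)) - q := by abel
      rw [this]
      exact (norm_sub_le _ _).trans (by linarith)
    rw [norm_smul, Real.norm_of_nonneg (by positivity)] at h4
    rw [div_lt_iff₀ hbq0] at hj
    linarith
  exact ⟨q, hmK hq, fun g => hsing _ (hminv g q hq)⟩

end

end Pool.Agent.Hhelper9.Chern
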