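import Pool.Agent.Hhelper9.Chern.Fix

open Set Filter Topology Manifold Bundle
open scoped ContDiff

namespace Pool.Agent.Hhelper9.Chern

noncomputable section

variable {Ev : Type*} [NormedAddCommGroup Ev] [InnerProductSpace ℝ Ev] [FiniteDimensional ℝ Ev]
  {M X Γ : Type*} [TopologicalSpace M]
  [ChartedSpace Ev M] [TopologicalSpace X] [Group Γ] [MulAction Γ X]
  {p : X → M} {D : X → Ev} {h : Γ →* (Ev ≃ᵃ[ℝ] Ev)}

theorem affine_homothety (A : Ev ≃ᵃ[ℝ] Ev) (c : ℝ) (q y : Ev) :
    A (q + c • (y - q)) = A q + c • (A y - A q) := by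
  rw [affine_add, map_smul, map_sub]
  rw [affineEquiv_apply A y, affineEquiv_apply A q]
  congr 2
  abel

/-- Uniform local extension of the homothetic flow. -/
theorem uniform_flow [CompactSpace M] [ContinuousConstSMul Γ X] (hd : IsDeveloping p D h)
    (q : Ev) (hq : ∀ g, h g q = q) :
    ∃ a > 0, ∀ x, ∃ c : ℝ → X, Continuous c ∧ c 1 = x ∧
      ∀ s ∈ Icc (1 : ℝ) (1 + a), D (c s) = q + s • (D x - q) := by
  refine uniform hd (fun a x => ∃ c : ℝ → X, Continuous c ∧ c 1 = x ∧
      ∀ s ∈ Icc (1 : ℝ) (1 + a), D (c s) = q + s • (D x - q)) ?_ ?_ ?_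
  · rintro a b x _ hba ⟨c, hc, hc1, hcs⟩
    exact ⟨c, hc, hc1, fun s hs => hcs s ⟨hs.1, hs.2.trans (by linarith)⟩⟩
  · rintro a g x ⟨c, hc, hc1, hcs⟩
    refine ⟨fun s => g • c s, (continuous_const_smul g).comp hc, by simp [hc1], fun s hs => ?_⟩
    rw [hd.equivariant, hcs s hs, affine_homothety, hq, hd.equivariant]
  · intro x
    obtain ⟨φ, hxφ, hφ⟩ := isLocalHomeomorph_dev hd x
    have hDc : Continuous D := (isLocalHomeomorph_dev hd).continuous
    have hcont : ContinuousAt (fun z : X × ℝ => q + z.2 • (D z.1 - q)) (x, 1) := by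
      have : Continuous (fun z : X × ℝ => q + z.2 • (D z.1 - q)) := by fun_prop
      exact this.continuousAt
    have hmem : q + (1 : ℝ) • (D x - q) ∈ φ.target := by
      rw [one_smul, add_sub_cancel, hφ]
      exact φ.map_source hxφ
    have hev := hcont.eventually (φ.open_target.mem_nhds hmem)
    rw [nhds_prod_eq, Filter.eventually_prod_iff] at hev
    obtain ⟨pa, hpa, pb, hpb, hab⟩ := hev
    obtain ⟨ε, hε, hball⟩ := Metric.eventually_nhds_iff.1 hpb
    refine ⟨ε / 2, by positivity, ?_⟩
    filter_upwards [hpa, φ.open_source.mem_nhds hxφ] with y hy hys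
    have htgt : ∀ s ∈ Icc (1 : ℝ) (1 + ε / 2), q + s • (D y - q) ∈ φ.target := by
      intro s hs
      refine hab hy (hball ?_)
      rw [Real.dist_eq, abs_lt]
      constructor <;> linarith [hs.1, hs.2]
    have hclamp : ∀ s : ℝ, max 1 (min s (1 + ε / 2)) ∈ Icc (1 : ℝ) (1 + ε / 2) := by
      intro s
      constructor
      · exact le_max_left _ _
      · exact max_le (by linarith) (min_le_right _ _)
    refine ⟨fun s => φ.symm (q + (max 1 (min s (1 + ε / 2))) • (D y - q)), ?_, ?_, ?_⟩
    · have h1 : Continuous (fun s : ℝ => q + (max 1 (min s (1 + ε / 2))) • (D y - q)) := by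
        fun_prop
      exact φ.symm.continuousOn.comp_continuous h1 fun s => htgt _ (hclamp s)
    · have h1 : max 1 (min (1 : ℝ) (1 + ε / 2)) = 1 := by
        rw [min_eq_left (by linarith), max_self]
      simp only [h1, one_smul, add_sub_cancel]
      rw [hφ]
      exact φ.left_inv hys
    · intro s hs
      have h1 : max 1 (min s (1 + ε / 2)) = s := by
        rw [min_eq_left hs.2, max_eq_right hs.1]
      simp only [h1]
      have h2 := φ.right_inv (htgt s hs)
      have h3 : D (φ.symm (q + s • (D y - q))) = φ (φ.symm (q + s • (D y - q))) :=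
        congrFun hφ _
      rw [h3, h2]

/-- Lifts of rays starting at a point over the fixed point. -/
theorem exists_lift [CompactSpace M] [ContinuousConstSMul Γ X] (hd : IsDeveloping p D h)
    (q : Ev) (hq : ∀ g, h g q = q) (x₀ : X) (hx₀ : D x₀ = q) (v : Ev) :
    ∃ c : ℝ → X, Continuous c ∧ c 0 = x₀ ∧ ∀ t ∈ Icc (0 : ℝ) 1, D (c t) = q + t • v := by
  obtain ⟨a, ha, hflow⟩ := uniform_flow hd q hq
  -- small vectors
  obtain ⟨φ, hxφ, hφ⟩ := isLocalHomeomorph_dev hd x₀
  have hqt : q ∈ φ.target := by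
    have := φ.map_source hxφ
    rwa [← hφ, hx₀] at this
  obtain ⟨r, hr, hball⟩ := Metric.isOpen_iff.1 φ.open_target q hqt
  have hsmall : ∀ w : Ev, ‖w‖ < r →
      ∃ c : ℝ → X, Continuous c ∧ c 0 = x₀ ∧ ∀ t ∈ Icc (0 : ℝ) 1, D (c t) = q + t • w := by
    intro w hw
    have htgt : ∀ t ∈ Icc (0 : ℝ) 1, q + t • w ∈ φ.target := by
      intro t ht
      apply hball
      rw [Metric.mem_ball, dist_eq_norm, add_sub_cancel_left, norm_smul, Real.norm_of_nonneg ht.1]
      calc t * ‖w‖ ≤ 1 * ‖w‖ := mul_le_mul_of_nonneg_right ht.2 (norm_nonneg _)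
        _ < r := by rwa [one_mul]
    have hclamp : ∀ s : ℝ, max 0 (min s 1) ∈ Icc (0 : ℝ) 1 := fun s =>
      ⟨le_max_left _ _, max_le zero_le_one (min_le_right _ _)⟩
    refine ⟨fun t => φ.symm (q + (max 0 (min t 1)) • w), ?_, ?_, ?_⟩
    · have h1 : Continuous (fun t : ℝ => q + (max 0 (min t 1)) • w) := by fun_prop
      exact φ.symm.continuousOn.comp_continuous h1 fun s => htgt _ (hclamp s)
    · simp only [min_eq_left zero_le_one, max_self, zero_smul, add_zero]
      rw [← hx₀, hφ]
      exact φ.left_inv hxφ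
    · intro t ht
      have h1 : max 0 (min t 1) = t := by rw [min_eq_left ht.2, max_eq_right ht.1]
      simp only [h1]
      have h3 : D (φ.symm (q + t • w)) = φ (φ.symm (q + t • w)) := congrFun hφ _
      rw [h3, φ.right_inv (htgt t ht)]
  -- extension
  have hext : ∀ w : Ev,
      (∃ c : ℝ → X, Continuous c ∧ c 0 = x₀ ∧ ∀ t ∈ Icc (0 : ℝ) 1, D (c t) = q + t • w) →
      (∃ c : ℝ → X, Continuous c ∧ c 0 = x₀ ∧
        ∀ t ∈ Icc (0 : ℝ) 1, D (c t) = q + t • ((1 + a) • w)) := by
    rintro w ⟨c, hc, hc0, hct⟩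
    obtain ⟨c', hc', hc'1, hc's⟩ := hflow (c 1)
    refine ⟨fun t => if (1 + a) * t ≤ 1 then c ((1 + a) * t) else c' ((1 + a) * t), ?_, ?_, ?_⟩
    · refine Continuous.if_le (hc.comp (by fun_prop)) (hc'.comp (by fun_prop)) (by fun_prop)
        continuous_const ?_
      intro t ht
      rw [ht, hc'1]
    · simp [hc0]
    · intro t ht
      have ht0 : 0 ≤ (1 + a) * t := mul_nonneg (by linarith) ht.1
      by_cases h1 : (1 + a) * t ≤ 1
      · simp only [h1, if_true]
        rw [hct _ ⟨ht0, h1⟩, smul_smul, mul_comm t]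
      · simp only [h1, if_false]
        have h2 : (1 + a) * t ≤ 1 + a := by nlinarith [ht.2]
        rw [hc's _ ⟨(not_le.1 h1).le, h2⟩, hct 1 ⟨zero_le_one, le_rfl⟩, one_smul,
          add_sub_cancel_left, smul_smul, mul_comm t]
  have hpow : ∀ k : ℕ, ∀ w : Ev, ‖w‖ < r →
      (∃ c : ℝ → X, Continuous c ∧ c 0 = x₀ ∧
        ∀ t ∈ Icc (0 : ℝ) 1, D (c t) = q + t • (((1 + a) ^ k) • w)) := by
    intro k w hw
    induction k with
    | zero => simpa using hsmall w hw
    | succ k ih =>
      have := hext _ ih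
      rw [smul_smul, ← pow_succ'] at this
      exact this
  obtain ⟨k, hk⟩ := pow_unbounded_of_one_lt (‖v‖ / r) (show 1 < 1 + a by linarith)
  have hpos : (0 : ℝ) < (1 + a) ^ k := by positivity
  have := hpow k (((1 + a) ^ k)⁻¹ • v) (by
    rw [norm_smul, norm_inv, Real.norm_of_nonneg hpos.le, inv_mul_lt_iff₀ hpos]
    rwa [div_lt_iff₀ hr] at hk)
  rwa [smul_smul, mul_inv_cancel₀ hpos.ne', one_smul] at this

/-- A fixed point of the affine holonomy of a closed affine manifold of positive dimension is not in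
the developing image. -/
theorem radiance [Nontrivial Ev] [CompactSpace M] [T2Space M] [T2Space X] [ContinuousConstSMul Γ X]
    (hd : IsDeveloping p D h) (q : Ev) (hq : ∀ g, h g q = q) : q ∉ range D := by
  rintro ⟨x₀, hx₀⟩
  have hD := isLocalHomeomorph_dev hd
  have hsep : IsSeparatedMap D := T2Space.isSeparatedMap D
  choose c hc hc0 hct using exists_lift hd q hq x₀ hx₀
  -- the section
  let σ : Ev → X := fun v => c v 1
  have hDσ : ∀ v, D (σ v) = q + v := fun v => by
    have := hct v 1 ⟨zero_le_one, le_rfl⟩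
    rwa [one_smul] at this
  have hσ : Continuous σ := by
    let f : C(unitInterval × Ev, Ev) := ⟨fun z => q + (z.1 : ℝ) • z.2, by fun_prop⟩
    have hg : Continuous (fun z : unitInterval × Ev => c z.2 z.1) := by
      refine hD.continuous_lift hsep f (g := fun z => c z.2 z.1) ?_ ?_ ?_
      · funext z
        exact hct z.2 z.1 z.1.2
      · have h0 : (fun v : Ev => c v ((0 : unitInterval) : ℝ)) = fun _ => x₀ := by
          funext v
          exact hc0 v
        change Continuous (fun v : Ev => c v ((0 : unitInterval) : ℝ))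
        rw [h0]
        exact continuous_const
      · intro v
        exact (hc v).comp continuous_subtype_val
    exact hg.comp (Continuous.prodMk (continuous_const (y := (1 : unitInterval))) continuous_id)
  have hσl : IsLocalHomeomorph σ := by
    refine IsLocalHomeomorph.of_comp (g := D) ?_ hD hσ
    have : D ∘ σ = Homeomorph.addLeft q := by
      funext v
      simp [hDσ]
    rw [this]
    exact (Homeomorph.addLeft q).isLocalHomeomorph
  have hψ : IsLocalHomeomorph (p ∘ σ) := hd.isLocalHomeomorph.comp hσl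
  have hLq : ∀ (g : Γ) (v : Ev), h g (q + v) = q + (h g).linear v := by
    intro g v
    rw [affine_add, hq]
  -- injectivity
  have hinj : Function.Injective (p ∘ σ) := by
    intro v v' hvv
    obtain ⟨g, hg⟩ := (hd.fiber _ _).1 hvv
    have hLv : (h g).linear v = v' := by
      have h1 : D (g • σ v) = q + v' := by rw [hg]; exact hDσ v'
      rw [hd.equivariant, hDσ, hLq] at h1
      exact add_left_cancel h1
    have hEq : EqOn (fun t => g • c v t) (c v') (Icc 0 1) := by
      refine hsep.eqOn_of_comp_eqOn hD.isLocallyInjective isPreconnected_Icc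
        (((continuous_const_smul g).comp (hc v)).continuousOn) (hc v').continuousOn ?_
        (a := 1) ⟨zero_le_one, le_rfl⟩ hg
      intro t ht
      simp only [Function.comp]
      rw [hd.equivariant, hct v t ht, hct v' t ht, hLq, map_smul, hLv]
    have hfix : g • x₀ = x₀ := by
      have := hEq (x := 0) ⟨le_rfl, zero_le_one⟩
      simpa [hc0] using this
    -- `g` acts trivially near `x₀`
    obtain ⟨φ, hxφ, hφ⟩ := hd.isLocalHomeomorph x₀
    have hev : ∀ᶠ y in 𝓝 x₀, h g (D y) = D y := by
      have h1 : ∀ᶠ y in 𝓝 x₀, g • y ∈ φ.source := by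
        have : Tendsto (fun y => g • y) (𝓝 x₀) (𝓝 (g • x₀)) := (continuous_const_smul g).tendsto _
        rw [hfix] at this
        exact this.eventually (φ.open_source.mem_nhds hxφ)
      filter_upwards [h1, φ.open_source.mem_nhds hxφ] with y hy1 hy2
      have h2 : p (g • y) = p y := ((hd.fiber y (g • y)).2 ⟨g, rfl⟩).symm
      have h3 : g • y = y := by
        apply φ.injOn hy1 hy2
        rwa [hφ] at h2
      rw [← hd.equivariant, h3]
    have hev2 : ∀ᶠ z in 𝓝 q, h g z = z := by
      have h1 : {z | h g z = z} ∈ Filter.map D (𝓝 x₀) := hev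
      rw [hD.map_nhds_eq, hx₀] at h1
      exact h1
    have hlin : (h g).linear v = v := by
      have h1 : Tendsto (fun t : ℝ => q + t • v) (𝓝 0) (𝓝 (q + (0 : ℝ) • v)) := by
        have : Continuous (fun t : ℝ => q + t • v) := by fun_prop
        exact this.tendsto 0
      rw [zero_smul, add_zero] at h1
      obtain ⟨δ, hδ, hb⟩ := Metric.eventually_nhds_iff.1 (h1.eventually hev2)
      have h2 := hb (y := δ / 2) (by simp [abs_of_pos hδ, hδ])
      rw [hLq, map_smul] at h2
      have h3 := add_left_cancel h2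
      exact smul_right_injective _ (by positivity : (δ / 2 : ℝ) ≠ 0) h3
    rw [← hLv, hlin]
  -- closed range
  have hclosed : IsClosed (range (p ∘ σ)) := by
    rw [← closure_subset_iff_isClosed]
    intro m₁ hm₁
    obtain ⟨x₁, rfl⟩ := hd.surjective m₁
    obtain ⟨φ, hxφ, hφ⟩ := hD x₁
    have hqt : D x₁ ∈ φ.target := by rw [hφ]; exact φ.map_source hxφ
    obtain ⟨r, hr, hball⟩ := Metric.isOpen_iff.1 φ.open_target _ hqt
    have hW : {y | y ∈ φ.source ∧ D y ∈ Metric.ball (D x₁) r} ∈ 𝓝 x₁ := by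
      filter_upwards [φ.open_source.mem_nhds hxφ,
        hD.continuous.continuousAt.eventually (Metric.ball_mem_nhds (D x₁) hr)] with y h1 h2
      exact ⟨h1, h2⟩
    have hpW := hd.isLocalHomeomorph.isOpenMap.image_mem_nhds hW
    obtain ⟨_, ⟨w, ⟨hws, hwb⟩, rfl⟩, ⟨v, hv⟩⟩ := mem_closure_iff_nhds.1 hm₁ _ hpW
    obtain ⟨g, hg⟩ := (hd.fiber (σ v) w).1 hv
    let τ₂ : Ev → X := fun u => g • σ ((h g).linear.symm (u - q))
    have hsymmc : Continuous (fun u : Ev => (h g).linear.symm u) :=
      LinearMap.continuous_of_finiteDimensional ((h g).linear.symm : Ev →ₗ[ℝ] Ev)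
    have hτ₂c : Continuous τ₂ :=
      (continuous_const_smul g).comp (hσ.comp (hsymmc.comp (by fun_prop)))
    have hτ₂D : ∀ u, D (τ₂ u) = u := by
      intro u
      simp only [τ₂]
      rw [hd.equivariant, hDσ, hLq, LinearEquiv.apply_symm_apply]
      abel
    have hEq : EqOn τ₂ φ.symm (Metric.ball (D x₁) r) := by
      refine hsep.eqOn_of_comp_eqOn hD.isLocallyInjective (convex_ball _ _).isPreconnected
        hτ₂c.continuousOn (φ.symm.continuousOn.mono hball) ?_ (a := D w) hwb ?_
      · intro u hu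
        simp only [Function.comp, hτ₂D]
        have h3 : D (φ.symm u) = φ (φ.symm u) := congrFun hφ _
        rw [h3, φ.right_inv (hball hu)]
      · have h1 : φ.symm (D w) = w := by rw [hφ]; exact φ.left_inv hws
        rw [h1]
        simp only [τ₂]
        have h2 : D w = q + (h g).linear v := by
          rw [← hg, hd.equivariant, hDσ, hLq]
        rw [h2, add_sub_cancel_left, LinearEquiv.symm_apply_apply, hg]
    have h1 := hEq (Metric.mem_ball_self hr)
    have h2 : φ.symm (D x₁) = x₁ := by rw [hφ]; exact φ.left_inv hxφ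
    rw [h2] at h1
    refine ⟨(h g).linear.symm (D x₁ - q), ?_⟩
    simp only [Function.comp]
    rw [(hd.fiber _ _).2 ⟨g, h1⟩]
  have hemb : IsClosedEmbedding (p ∘ σ) :=
    ⟨(hψ.isOpenEmbedding_of_injective hinj).isEmbedding, hclosed⟩
  have hcomp : CompactSpace Ev := hemb.compactSpace
  have hnc : NoncompactSpace Ev := NormedSpace.noncompactSpace ℝ Ev
  exact noncompact_univ Ev isCompact_univ

end

end Pool.Agent.Hhelper9.Chern
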