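import Pool.Agent.Hhelper9.Chern.Equi
import Pool.Agent.Hhelper9.Chern.Conv

open Set Filter Topology Manifold Bundle
open scoped ContDiff

namespace Pool.Agent.Hhelper9.Chern

noncomputable section

section topological

variable {M X Γ Z : Type*} [TopologicalSpace M] [TopologicalSpace X] [Group Γ] [MulAction Γ X]
  [ContinuousConstSMul Γ X] [TopologicalSpace Z] [MulAction Γ Z] [ContinuousConstSMul Γ Z]
  {p : X → M}

/-- Relative version of the extension of equivariant maps into a contractible space. -/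
theorem exists_equivariant_rel [T2Space M] [CompactSpace M] [ContractibleSpace Z]
    (hp : IsLocalHomeomorph p) (hsurj : Function.Surjective p)
    (hfib : ∀ x y, p x = p y ↔ ∃ g : Γ, g • x = y)
    (hfree : ∀ (g : Γ) (x : X), g • x = x → g = 1)
    (K W₀ : Set M) (hK : IsClosed K) (hW₀ : IsOpen W₀) (hKW : K ⊆ W₀)
    (f₀ : X → Z) (hf₀ : ContinuousOn f₀ (p ⁻¹' W₀))
    (hf₀e : ∀ x, p x ∈ W₀ → ∀ g : Γ, f₀ (g • x) = g • f₀ x) :
    ∃ f : X → Z, Continuous f ∧ (∀ (g : Γ) x, f (g • x) = g • f x) ∧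
      ∀ x, p x ∈ K → f x = f₀ x := by
  classical
  have hpc : Continuous p := hp.continuous
  obtain ⟨z₀, ⟨H⟩⟩ := id_nullhomotopic Z
  -- finite cover by local sections
  choose x₀ hx₀ using hsurj
  have hσ : ∀ m : M, ∃ σ : LocSec p, m ∉ K → m ∈ σ.U ∧ ∀ u ∈ σ.U, u ∉ K := by
    intro m
    by_cases hm : m ∈ K
    · obtain ⟨σ, -, -, -⟩ := exists_locSec hp (x₀ m) univ univ_mem
      exact ⟨σ, fun h => absurd hm h⟩
    · have hV : p ⁻¹' Kᶜ ∈ 𝓝 (x₀ m) := by
        apply (hK.isOpen_compl.preimage hpc).mem_nhds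
        change p (x₀ m) ∉ K
        rwa [hx₀]
      obtain ⟨σ, h1, -, h3⟩ := exists_locSec hp (x₀ m) _ hV
      refine ⟨σ, fun _ => ⟨by rwa [hx₀] at h1, fun u hu => ?_⟩⟩
      have := h3 u hu
      change p (σ.s u) ∉ K at this
      rwa [σ.right u hu] at this
  choose σ hσm using hσ
  have key : ∀ t : Finset M, (∀ m ∈ t, m ∉ K) → ∀ C : Set M, IsClosed C →
      C ⊆ W₀ ∪ (⋃ m ∈ t, (σ m).U) →
      ∃ W : Set M, IsOpen W ∧ C ⊆ W ∧ ∃ f : X → Z, ContinuousOn f (p ⁻¹' W) ∧
        (∀ x, p x ∈ W → ∀ g : Γ, f (g • x) = g • f x) ∧ ∀ x, p x ∈ K → f x = f₀ x := by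
    intro t
    induction t using Finset.induction_on with
    | empty =>
      intro _ C _ hC
      have hC' : C ⊆ W₀ := by simpa using hC
      exact ⟨W₀, hW₀, hC', f₀, hf₀, hf₀e, fun _ _ => rfl⟩
    | insert m t hm ih =>
      intro htK C hCcl hC
      have hmK : m ∉ K := htK m (Finset.mem_insert_self _ _)
      have hUK : ∀ u ∈ (σ m).U, u ∉ K := (hσm m hmK).2
      set U := (σ m).U with hU
      set s := (σ m).s with hs
      have hUo : IsOpen U := (σ m).isOpen
      set R : Set M := W₀ ∪ ⋃ k ∈ t, (σ k).U with hR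
      have hRo : IsOpen R := hW₀.union (isOpen_biUnion fun k _ => (σ k).isOpen)
      set C1 : Set M := (C ∪ K) \ U with hC1def
      have hC1 : IsClosed C1 := (hCcl.union hK).sdiff hUo
      have hC1R : C1 ⊆ R := by
        rintro u ⟨hu, hu'⟩
        rcases hu with hu | hu
        · have := hC hu
          rw [Finset.set_biUnion_insert] at this
          rcases this with h | h | h
          · exact Or.inl h
          · exact absurd h hu'
          · exact Or.inr h
        · exact Or.inl (hKW hu)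
      have hKC1 : K ⊆ C1 := fun u hu => ⟨Or.inr hu, fun hu' => hUK u hu' hu⟩
      obtain ⟨O, hOo, hC1O, hOR⟩ := normal_exists_closure_subset hC1 hRo hC1R
      obtain ⟨O', hO'o, hC1O', hO'O⟩ := normal_exists_closure_subset hC1 hOo hC1O
      obtain ⟨W, hWo, hOW, f, hf, hfe, hfK⟩ := ih
        (fun k hk => htK k (Finset.mem_insert_of_mem hk)) (closure O) isClosed_closure hOR
      obtain ⟨τ, hτ0, hτ1, hτ⟩ := exists_continuous_zero_one_of_isClosed
        (isClosed_closure (s := O')) hOo.isClosed_compl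
        (by
          rw [Set.disjoint_compl_right_iff_subset]
          exact hO'O)
      let τ' : M → unitInterval := fun u => ⟨τ u, hτ u⟩
      have hτ'c : Continuous τ' := Continuous.subtype_mk τ.continuous _
      let F : M → Z := fun u => if u ∈ W then H (τ' u, f (s u)) else z₀
      have hF1 : ∀ u, u ∉ O → F u = z₀ := by
        intro u hu
        have h1 : τ u = 1 := hτ1 hu
        have h2 : τ' u = 1 := Subtype.ext h1
        by_cases huW : u ∈ W
        · simp only [F, if_pos huW, h2]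
          exact H.apply_one _
        · simp only [F, if_neg huW]
      have hFc : ContinuousOn F U := by
        intro u hu
        by_cases huO : u ∈ closure O
        · have huW := hOW huO
          have h1 : F =ᶠ[𝓝 u] fun u => H (τ' u, f (s u)) := by
            filter_upwards [hWo.mem_nhds huW] with v hv
            simp only [F, if_pos hv]
          apply ContinuousAt.continuousWithinAt
          refine ContinuousAt.congr ?_ h1.symm
          have h2 : ContinuousAt s u := ((σ m).cont u hu).continuousAt (hUo.mem_nhds hu)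
          have h3 : ContinuousAt f (s u) := by
            have : s u ∈ p ⁻¹' W := by
              change p (s u) ∈ W
              rw [(σ m).right u hu]; exact huW
            exact (hf _ this).continuousAt ((hWo.preimage hpc).mem_nhds this)
          have h4 : ContinuousAt (fun v => f (s v)) u := ContinuousAt.comp (f := s) h3 h2
          exact H.continuous.continuousAt.comp (hτ'c.continuousAt.prodMk h4)
        · have h1 : F =ᶠ[𝓝 u] fun _ => z₀ := by
            filter_upwards [isClosed_closure.isOpen_compl.mem_nhds huO] with v hv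
            exact hF1 v (fun h => hv (subset_closure h))
          apply ContinuousAt.continuousWithinAt
          exact ContinuousAt.congr continuousAt_const h1.symm
      have hG : ∀ x, ∃ g : Γ, p x ∈ U → g • s (p x) = x := by
        intro x
        by_cases hx : p x ∈ U
        · obtain ⟨g, hg⟩ := (σ m).exists_smul hfib hx
          exact ⟨g, fun _ => hg⟩
        · exact ⟨1, fun h => absurd h hx⟩
      choose G hG using hG
      let f' : X → Z := fun x => if p x ∈ U then G x • F (p x) else f x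
      -- on `O'` nothing changes
      have hsame : ∀ x, p x ∈ O' → f' x = f x := by
        intro x hx
        by_cases hxU : p x ∈ U
        · have h0 : τ (p x) = 0 := hτ0 (subset_closure hx)
          have h0' : τ' (p x) = 0 := Subtype.ext h0
          have hxW : p x ∈ W := hOW (subset_closure (hO'O (subset_closure hx)))
          have h1 : F (p x) = f (s (p x)) := by
            simp only [F, if_pos hxW, h0']
            exact H.apply_zero _
          simp only [f', if_pos hxU, h1]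
          have h2 : p (s (p x)) ∈ W := by rw [(σ m).right _ hxU]; exact hxW
          rw [← hfe _ h2, hG x hxU]
        · simp only [f', if_neg hxU]
      refine ⟨O' ∪ U, hO'o.union hUo, ?_, f', ?_, ?_, ?_⟩
      · intro u hu
        by_cases huU : u ∈ U
        · exact Or.inr huU
        · exact Or.inl (hC1O' ⟨Or.inl hu, huU⟩)
      · intro x hx
        apply ContinuousAt.continuousWithinAt
        by_cases hxU : p x ∈ U
        · have hev := (σ m).eventually hfib hxU (hG x hxU)
          have h1 : f' =ᶠ[𝓝 x] fun y => G x • F (p y) := by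
            filter_upwards [hev] with y hy
            have h2 : G y = G x := by
              apply free_unique hfree (y := s (p y))
              rw [hG y hy.1]
              exact hy.2.symm
            simp only [f']
            rw [if_pos hy.1, h2]
          refine ContinuousAt.congr ?_ h1.symm
          have h3 : ContinuousAt F (p x) := (hFc _ hxU).continuousAt (hUo.mem_nhds hxU)
          have h4 : ContinuousAt (fun y => F (p y)) x := ContinuousAt.comp (f := p) h3 hpc.continuousAt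
          exact (continuous_const_smul (G x)).continuousAt.comp h4
        · have hxO : p x ∈ O' := hx.resolve_right hxU
          have h1 : f' =ᶠ[𝓝 x] f := by
            filter_upwards [(hO'o.preimage hpc).mem_nhds hxO] with y hy
            exact hsame y hy
          refine ContinuousAt.congr ?_ h1.symm
          have : x ∈ p ⁻¹' W := hOW (subset_closure (hO'O (subset_closure hxO)))
          exact (hf _ this).continuousAt ((hWo.preimage hpc).mem_nhds this)
      · intro x hx g
        have hpg : p (g • x) = p x := ((hfib x (g • x)).2 ⟨g, rfl⟩).symm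
        by_cases hxU : p x ∈ U
        · have hgU : p (g • x) ∈ U := by rw [hpg]; exact hxU
          have h2 : G (g • x) = g * G x := by
            apply free_unique hfree (y := s (p x))
            have := hG (g • x) hgU
            rw [hpg] at this
            rw [this, mul_smul, hG x hxU]
          simp only [f']
          rw [if_pos hgU, if_pos hxU, h2, hpg, mul_smul]
        · have hxO : p x ∈ O' := hx.resolve_right hxU
          have hgO : p (g • x) ∈ O' := by rw [hpg]; exact hxO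
          rw [hsame _ hxO, hsame _ hgO]
          exact hfe x (hOW (subset_closure (hO'O (subset_closure hxO)))) g
      · intro x hx
        rw [hsame x (hC1O' (hKC1 hx))]
        exact hfK x hx
  have hcomp : IsCompact W₀ᶜ := hW₀.isClosed_compl.isCompact
  obtain ⟨t, htsub, ht⟩ := hcomp.elim_nhds_subcover (fun m => (σ m).U) (fun m hm => by
    have hmK : m ∉ K := fun h => hm (hKW h)
    exact (σ m).isOpen.mem_nhds (hσm m hmK).1)
  obtain ⟨W, -, hW, f, hf, hfe, hfK⟩ := key t (fun m hm h => htsub m hm (hKW h)) univ isClosed_univ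
    (by
      intro u _
      by_cases hu : u ∈ W₀
      · exact Or.inl hu
      · exact Or.inr (ht hu))
  have hWu : W = univ := univ_subset_iff.1 hW
  subst hWu
  refine ⟨f, ?_, fun g x => hfe x (mem_univ _) g, hfK⟩
  rw [← continuousOn_univ]
  simpa using hf

end topological

section crossing

variable {Ev : Type*} [NormedAddCommGroup Ev] [InnerProductSpace ℝ Ev] [FiniteDimensional ℝ Ev]

/-- moving in directions close to `v` for a short time, one goes from the complement of `W'`
into `W`, near `y`. -/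
def HC (W W' : Set Ev) (y v : Ev) : Prop :=
  ∀ᶠ q : Ev × Ev × ℝ in 𝓝 y ×ˢ (𝓝 v ×ˢ 𝓝[>] (0 : ℝ)), q.1 ∉ W' → q.1 + q.2.2 • q.2.1 ∈ W

theorem HC.eventually {W W' : Set Ev} {y v : Ev} (hc : HC W W' y v) : ∀ᶠ y' in 𝓝 y, HC W W' y' v := by
  obtain ⟨U, hU, V, hV, hUV⟩ := Filter.mem_prod_iff.1 hc
  obtain ⟨U', hU'sub, hU'o, hyU'⟩ := mem_nhds_iff.1 hU
  filter_upwards [hU'o.mem_nhds hyU'] with y' hy'
  exact Filter.mem_prod_iff.2 ⟨U', hU'o.mem_nhds hy', V, hV,
    (Set.prod_mono hU'sub Subset.rfl).trans hUV⟩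

theorem tendsto_pos_smul {a : ℝ} (ha : 0 < a) :
    Tendsto (fun t : ℝ => a * t) (𝓝[>] (0 : ℝ)) (𝓝[>] (0 : ℝ)) := by
  refine tendsto_nhdsWithin_iff.2 ⟨?_, ?_⟩
  · have : Tendsto (fun t : ℝ => a * t) (𝓝 0) (𝓝 (a * 0)) := (continuous_const_mul a).tendsto 0
    rw [mul_zero] at this
    exact this.mono_left nhdsWithin_le_nhds
  · filter_upwards [self_mem_nhdsWithin] with t ht
    exact mul_pos ha ht

theorem HC.convex {W W' : Set Ev} (hdisj : Disjoint W W') (y : Ev) :
    Convex ℝ {v | HC W W' y v} := by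
  intro v hv w hw a b ha hb hab
  rcases eq_or_lt_of_le ha with ha0 | ha0
  · have hb1 : b = 1 := by linarith
    rw [← ha0, hb1, zero_smul, zero_add, one_smul]
    exact hw
  rcases eq_or_lt_of_le hb with hb0 | hb0
  · have ha1 : a = 1 := by linarith
    rw [← hb0, ha1, zero_smul, add_zero, one_smul]
    exact hv
  set c := a • v + b • w with hc
  change ∀ᶠ q : Ev × Ev × ℝ in 𝓝 y ×ˢ (𝓝 c ×ˢ 𝓝[>] (0 : ℝ)), q.1 ∉ W' → q.1 + q.2.2 • q.2.1 ∈ W
  have ht1 : Tendsto (fun q : Ev × Ev × ℝ => (q.1, v + (q.2.1 - c), a * q.2.2))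
      (𝓝 y ×ˢ (𝓝 c ×ˢ 𝓝[>] (0 : ℝ))) (𝓝 y ×ˢ (𝓝 v ×ˢ 𝓝[>] (0 : ℝ))) := by
    refine tendsto_fst.prodMk (Tendsto.prodMk ?_ ?_)
    · have h1 : Tendsto (fun z : Ev => v + (z - c)) (𝓝 c) (𝓝 v) := by
        have : ContinuousAt (fun z : Ev => v + (z - c)) c := by fun_prop
        have h2 := this.tendsto
        simpa using h2
      exact h1.comp (tendsto_fst.comp tendsto_snd)
    · exact (tendsto_pos_smul ha0).comp (tendsto_snd.comp tendsto_snd)
  have ht2 : Tendsto (fun q : Ev × Ev × ℝ =>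
      (q.1 + (a * q.2.2) • (v + (q.2.1 - c)), w + (q.2.1 - c), b * q.2.2))
      (𝓝 y ×ˢ (𝓝 c ×ˢ 𝓝[>] (0 : ℝ))) (𝓝 y ×ˢ (𝓝 w ×ˢ 𝓝[>] (0 : ℝ))) := by
    refine Tendsto.prodMk ?_ (Tendsto.prodMk ?_ ?_)
    · have h1 : Tendsto (fun q : Ev × Ev × ℝ => q.1 + (a * q.2.2) • (v + (q.2.1 - c)))
          (𝓝 (y, c, 0)) (𝓝 y) := by
        have : ContinuousAt (fun q : Ev × Ev × ℝ => q.1 + (a * q.2.2) • (v + (q.2.1 - c)))
          (y, c, 0) := by fun_prop
        have h2 := this.tendsto
        simpa using h2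
      refine h1.mono_left ?_
      rw [nhds_prod_eq, nhds_prod_eq]
      exact Filter.prod_mono le_rfl (Filter.prod_mono le_rfl nhdsWithin_le_nhds)
    · have h1 : Tendsto (fun z : Ev => w + (z - c)) (𝓝 c) (𝓝 w) := by
        have : ContinuousAt (fun z : Ev => w + (z - c)) c := by fun_prop
        have h2 := this.tendsto
        simpa using h2
      exact h1.comp (tendsto_fst.comp tendsto_snd)
    · exact (tendsto_pos_smul hb0).comp (tendsto_snd.comp tendsto_snd)
  filter_upwards [ht1.eventually hv, ht2.eventually hw] with q h1 h2 hq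
  have h3 := h1 hq
  have h4 := h2 (fun h => (Set.disjoint_left.1 hdisj h3) h)
  have h5 : q.1 + (a * q.2.2) • (v + (q.2.1 - c)) + (b * q.2.2) • (w + (q.2.1 - c))
      = q.1 + q.2.2 • q.2.1 := by
    have h6 : (a * q.2.2) • (v + (q.2.1 - c)) + (b * q.2.2) • (w + (q.2.1 - c))
        = q.2.2 • ((a • v + b • w) + (a + b) • (q.2.1 - c)) := by
      simp only [smul_add, add_smul, smul_smul, mul_comm a q.2.2, mul_comm b q.2.2]
      abel
    rw [add_assoc, h6, hab, one_smul, ← hc]
    congr 2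
    abel
  rw [← h5]
  exact h4

theorem HC.map {W W' : Set Ev} (A : Ev ≃ᵃ[ℝ] Ev) (hW : ∀ z ∈ W, A z ∈ W)
    (hW' : ∀ z ∈ W', A z ∈ W') {y v : Ev} (hc : HC W W' y v) : HC W W' (A y) (A.linear v) := by
  have hL : Continuous (A.linear.symm : Ev → Ev) :=
    LinearMap.continuous_of_finiteDimensional (A.linear.symm : Ev →ₗ[ℝ] Ev)
  have ht : Tendsto (fun q : Ev × Ev × ℝ => (A.symm q.1, A.linear.symm q.2.1, q.2.2))
      (𝓝 (A y) ×ˢ (𝓝 (A.linear v) ×ˢ 𝓝[>] (0 : ℝ))) (𝓝 y ×ˢ (𝓝 v ×ˢ 𝓝[>] (0 : ℝ))) := by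
    refine Tendsto.prodMk ?_ (Tendsto.prodMk ?_ (tendsto_snd.comp tendsto_snd))
    · have h1 : Tendsto A.symm (𝓝 (A y)) (𝓝 y) := by
        have := (affine_continuous A.symm).tendsto (A y)
        rwa [AffineEquiv.symm_apply_apply] at this
      exact h1.comp tendsto_fst
    · have h1 : Tendsto A.linear.symm (𝓝 (A.linear v)) (𝓝 v) := by
        have := hL.tendsto (A.linear v)
        rwa [LinearEquiv.symm_apply_apply] at this
      exact h1.comp (tendsto_fst.comp tendsto_snd)
  change ∀ᶠ q : Ev × Ev × ℝ in _, _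
  filter_upwards [ht.eventually hc] with q hq h
  have h1 := hq (fun h' => h (by
    have := hW' _ h'
    rwa [AffineEquiv.apply_symm_apply] at this))
  have h2 := hW _ h1
  rw [affine_add, AffineEquiv.apply_symm_apply, map_smul, LinearEquiv.apply_symm_apply] at h2
  exact h2

/-- regular zero sets have crossing directions -/
theorem HC.of_fderiv {φ : Ev → ℝ} {φ' : Ev →L[ℝ] ℝ} {y v : Ev} (hφ : HasStrictFDerivAt φ φ' y)
    (hv : φ' v < 0) : HC {z | φ z < 0} {z | 0 < φ z} y v := by
  have h1 := hφ.isLittleO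
  set c : ℝ := -φ' v / (2 * (‖v‖ + 1)) with hc
  have hc0 : 0 < c := by
    have : 0 < ‖v‖ + 1 := by positivity
    rw [hc]
    apply div_pos <;> linarith
  have h2 := h1.def hc0
  have ht : Tendsto (fun q : Ev × Ev × ℝ => (q.1 + q.2.2 • q.2.1, q.1))
      (𝓝 y ×ˢ (𝓝 v ×ˢ 𝓝[>] (0 : ℝ))) (𝓝 (y, y)) := by
    have h3 : Tendsto (fun q : Ev × Ev × ℝ => (q.1 + q.2.2 • q.2.1, q.1)) (𝓝 (y, v, 0)) (𝓝 (y, y)) := by
      have : ContinuousAt (fun q : Ev × Ev × ℝ => (q.1 + q.2.2 • q.2.1, q.1)) (y, v, 0) := by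
        fun_prop
      have h4 := this.tendsto
      simpa using h4
    refine h3.mono_left ?_
    rw [nhds_prod_eq, nhds_prod_eq]
    exact Filter.prod_mono le_rfl (Filter.prod_mono le_rfl nhdsWithin_le_nhds)
  have hv1 : ∀ᶠ q : Ev × Ev × ℝ in (𝓝 y ×ˢ (𝓝 v ×ˢ 𝓝[>] (0 : ℝ))), φ' q.2.1 < φ' v / 2 := by
    have h3 : Tendsto (fun q : Ev × Ev × ℝ => φ' q.2.1) (𝓝 y ×ˢ (𝓝 v ×ˢ 𝓝[>] (0 : ℝ)))
        (𝓝 (φ' v)) := (φ'.continuous.tendsto v).comp (tendsto_fst.comp tendsto_snd)
    exact h3.eventually (gt_mem_nhds (by linarith))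
  have hv2 : ∀ᶠ q : Ev × Ev × ℝ in (𝓝 y ×ˢ (𝓝 v ×ˢ 𝓝[>] (0 : ℝ))), ‖q.2.1‖ < ‖v‖ + 1 := by
    have h3 : Tendsto (fun q : Ev × Ev × ℝ => ‖q.2.1‖) (𝓝 y ×ˢ (𝓝 v ×ˢ 𝓝[>] (0 : ℝ)))
        (𝓝 ‖v‖) := (continuous_norm.tendsto v).comp (tendsto_fst.comp tendsto_snd)
    exact h3.eventually (gt_mem_nhds (by linarith))
  have hv3 : ∀ᶠ q : Ev × Ev × ℝ in (𝓝 y ×ˢ (𝓝 v ×ˢ 𝓝[>] (0 : ℝ))), 0 < q.2.2 := by
    have h3 : Tendsto (fun q : Ev × Ev × ℝ => q.2.2) (𝓝 y ×ˢ (𝓝 v ×ˢ 𝓝[>] (0 : ℝ)))
        (𝓝[>] (0 : ℝ)) := tendsto_snd.comp tendsto_snd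
    exact h3.eventually self_mem_nhdsWithin
  change ∀ᶠ q : Ev × Ev × ℝ in _, _
  filter_upwards [ht.eventually h2, hv1, hv2, hv3] with q h4 h5 h6 h7 h8
  have h8' : φ q.1 ≤ 0 := not_lt.1 h8
  change φ (q.1 + q.2.2 • q.2.1) < 0
  simp only [add_sub_cancel_left, map_smul, smul_eq_mul] at h4
  rw [norm_smul, Real.norm_of_nonneg h7.le] at h4
  have h9 := (abs_le.1 h4).2
  have h10 : c * (q.2.2 * ‖q.2.1‖) ≤ q.2.2 * (-φ' v / 2) := by
    have h11 : c * ‖q.2.1‖ ≤ -φ' v / 2 := by
      have h12 : c * ‖q.2.1‖ ≤ c * (‖v‖ + 1) := by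
        apply mul_le_mul_of_nonneg_left h6.le hc0.le
      have h13 : c * (‖v‖ + 1) = -φ' v / 2 := by
        rw [hc]
        have : (‖v‖ + 1) ≠ 0 := by positivity
        field_simp
      linarith
    calc c * (q.2.2 * ‖q.2.1‖) = q.2.2 * (c * ‖q.2.1‖) := by ring
      _ ≤ q.2.2 * (-φ' v / 2) := mul_le_mul_of_nonneg_left h11 h7.le
  have h14 : q.2.2 * φ' q.2.1 < q.2.2 * (φ' v / 2) := mul_lt_mul_of_pos_left h5 h7
  have h15 : q.2.2 * (-φ' v / 2) = - (q.2.2 * (φ' v / 2)) := by ring
  have h16 : φ (q.1 + q.2.2 • q.2.1) - φ q.1 - q.2.2 * φ' q.2.1 ≤ c * (q.2.2 * ‖q.2.1‖) := h9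
  linarith

end crossing

section main

variable {Ev : Type*} [NormedAddCommGroup Ev] [InnerProductSpace ℝ Ev] [FiniteDimensional ℝ Ev]
  {M X Γ : Type*} [TopologicalSpace M] [T2Space M] [CompactSpace M]
  [ChartedSpace Ev M]
  [TopologicalSpace X] [Group Γ] [MulAction Γ X] [ContinuousConstSMul Γ X]
  {p : X → M} {D : X → Ev} {h : Γ →* (Ev ≃ᵃ[ℝ] Ev)}

theorem linear_comb_fin (g : Γ) {ι : Type*} [Fintype ι] (a : ι → ℝ) (c : ι → Ev) :
    (h g).linear (∑ i, a i • c i) = ∑ i, a i • (h g).linear (c i) := by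
  rw [map_sum]
  simp only [map_smul]

/-- Equivariant continuous selections of convex sets with locally constant selections. -/
theorem exists_equivariant_convex (hp : IsLocalHomeomorph p) (hsurj : Function.Surjective p)
    (hfib : ∀ x y, p x = p y ↔ ∃ g : Γ, g • x = y)
    (hfree : ∀ (g : Γ) (x : X), g • x = x → g = 1) (Q : X → Set Ev)
    (hconv : ∀ x, Convex ℝ (Q x))
    (hequi : ∀ (g : Γ) (x : X), ∀ v ∈ Q x, (h g).linear v ∈ Q (g • x))
    (hloc : ∀ x, ∃ c : Ev, ∀ᶠ y in 𝓝 x, c ∈ Q y) :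
    ∃ u : X → Ev, Continuous u ∧ (∀ (g : Γ) x, u (g • x) = (h g).linear (u x)) ∧
      ∀ x, u x ∈ Q x := by
  classical
  have hpc : Continuous p := hp.continuous
  choose x₀ hx₀ using hsurj
  have hσ : ∀ m : M, ∃ (σ : LocSec p) (c : Ev), m ∈ σ.U ∧ ∀ w ∈ σ.U, c ∈ Q (σ.s w) := by
    intro m
    obtain ⟨c, hc⟩ := hloc (x₀ m)
    obtain ⟨σ, h1, -, h3⟩ := exists_locSec hp (x₀ m) _ hc
    exact ⟨σ, c, by rwa [hx₀] at h1, h3⟩
  choose σ c hσm hσc using hσ
  obtain ⟨t, ht⟩ := CompactSpace.elim_nhds_subcover (fun m => (σ m).U)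
    (fun m => (σ m).isOpen.mem_nhds (hσm m))
  obtain ⟨ρ, hρ⟩ := PartitionOfUnity.exists_isSubordinate (ι := t) isClosed_univ
    (fun i => (σ i).U) (fun i => (σ i).isOpen) (by
      intro u _
      have hu : u ∈ ⋃ m ∈ t, (σ m).U := by rw [ht]; trivial
      simp only [mem_iUnion] at hu ⊢
      obtain ⟨m, hm, hum⟩ := hu
      exact ⟨⟨m, hm⟩, hum⟩)
  have hG : ∀ (i : t) x, ∃ g : Γ, p x ∈ (σ i).U → g • (σ i).s (p x) = x := by
    intro i x
    by_cases hx : p x ∈ (σ i).U
    · obtain ⟨g, hg⟩ := (σ i).exists_smul hfib hx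
      exact ⟨g, fun _ => hg⟩
    · exact ⟨1, fun h => absurd h hx⟩
  choose G hG using hG
  refine ⟨fun x => ∑ i : t, (ρ i (p x)) • (h (G i x)).linear (c i), ?_, ?_, ?_⟩
  · refine continuous_finsetSum _ fun i _ => ?_
    rw [continuous_iff_continuousAt]
    intro x
    by_cases hx : p x ∈ (σ i).U
    · have hev := (σ i).eventually hfib hx (hG i x hx)
      have h1 : (fun y => (ρ i (p y)) • (h (G i y)).linear (c i)) =ᶠ[𝓝 x]
          fun y => (ρ i (p y)) • (h (G i x)).linear (c i) := by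
        filter_upwards [hev] with y hy
        have h2 : G i y = G i x := by
          apply free_unique hfree (y := (σ i).s (p y))
          rw [hG i y hy.1]
          exact hy.2.symm
        rw [h2]
      refine ContinuousAt.congr ?_ h1.symm
      exact (((ρ i).continuous.comp hpc).smul continuous_const).continuousAt
    · have hx' : p x ∉ tsupport (ρ i) := fun h' => hx (hρ i h')
      have h1 : (fun y => (ρ i (p y)) • (h (G i y)).linear (c i)) =ᶠ[𝓝 x] fun _ => (0 : Ev) := by
        have h2 : p ⁻¹' (tsupport (ρ i))ᶜ ∈ 𝓝 x :=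
          ((isClosed_tsupport _).isOpen_compl.preimage hpc).mem_nhds hx'
        filter_upwards [h2] with y hy
        have h3 : ρ i (p y) = 0 := image_eq_zero_of_notMem_tsupport hy
        rw [h3, zero_smul]
      exact ContinuousAt.congr continuousAt_const h1.symm
  · intro g x
    have hpg : p (g • x) = p x := ((hfib x (g • x)).2 ⟨g, rfl⟩).symm
    simp only [hpg]
    rw [linear_comb_fin]
    refine Finset.sum_congr rfl fun i _ => ?_
    by_cases hx : p x ∈ (σ i).U
    · have hgx : p (g • x) ∈ (σ i).U := by rw [hpg]; exact hx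
      have h2 : G i (g • x) = g * G i x := by
        apply free_unique hfree (y := (σ i).s (p x))
        have := hG i (g • x) hgx
        rw [hpg] at this
        rw [this, mul_smul, hG i x hx]
      rw [h2, linear_mul]
    · have h3 : ρ i (p x) = 0 := image_eq_zero_of_notMem_tsupport fun h' => hx (hρ i h')
      rw [h3, zero_smul, zero_smul]
  · intro x
    have h1 : (∑ᶠ i, (ρ i (p x)) • (h (G i x)).linear (c i)) ∈ Q x := by
      refine (hconv x).finsum_mem (fun i => ρ.nonneg i _) (ρ.sum_eq_one (mem_univ _)) ?_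
      intro i hi
      have hx : p x ∈ (σ i).U := by
        apply hρ i
        exact subset_tsupport _ hi
      have h2 := hequi (G i x) _ _ (hσc i (p x) hx)
      rwa [hG i x hx] at h2
    rwa [finsum_eq_sum_of_fintype] at h1

omit [T2Space M] [CompactSpace M] [ChartedSpace Ev M] [TopologicalSpace M] [TopologicalSpace X]
  [MulAction Γ X] [ContinuousConstSMul Γ X] in
theorem preserve_iff {W : Set Ev} (hinv : ∀ (g : Γ), ∀ y ∈ W, h g y ∈ W) (g : Γ) (y : Ev) :
    h g y ∈ W ↔ y ∈ W := by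
  refine ⟨fun hy => ?_, hinv g y⟩
  have h1 := hinv g⁻¹ _ hy
  have h2 : h g⁻¹ (h g y) = y := by
    have : (h g⁻¹ * h g) y = y := by rw [← map_mul, inv_mul_cancel, map_one]; rfl
    exact this
  rwa [h2] at h1

/-- the action of `Γ` on an invariant set -/
@[reducible] def setAction (h : Γ →* (Ev ≃ᵃ[ℝ] Ev)) (W : Set Ev)
    (hinv : ∀ (g : Γ), ∀ y ∈ W, h g y ∈ W) : MulAction Γ W where
  smul g y := ⟨h g y, hinv g y y.2⟩
  one_smul y := Subtype.ext (by
    change h 1 (y : Ev) = y
    rw [map_one]; rfl)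
  mul_smul g g' y := Subtype.ext (by
    change h (g * g') (y : Ev) = h g (h g' y)
    rw [map_mul]; rfl)

/-- extension of an equivariant map into an invariant contractible set -/
theorem exists_into_set (hd : IsDeveloping p D h)
    (hfree : ∀ (g : Γ) (x : X), g • x = x → g = 1) (W : Set Ev) (hW : IsOpen W)
    (hinv : ∀ (g : Γ), ∀ y ∈ W, h g y ∈ W) [ContractibleSpace W]
    (K W₀ : Set M) (hK : IsClosed K) (hW₀ : IsOpen W₀) (hKW : K ⊆ W₀)
    (f₀ : X → Ev) (hf₀ : Continuous f₀) (hf₀W : ∀ x, p x ∈ W₀ → f₀ x ∈ W)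
    (hf₀e : ∀ (g : Γ) x, f₀ (g • x) = h g (f₀ x)) :
    ∃ f : X → Ev, Continuous f ∧ (∀ (g : Γ) x, f (g • x) = h g (f x)) ∧ (∀ x, f x ∈ W) ∧
      ∀ x, p x ∈ K → f x = f₀ x := by
  classical
  let _ : MulAction Γ W := setAction h W hinv
  have _ : ContinuousConstSMul Γ W := ⟨fun g => by
    apply Continuous.subtype_mk
    exact (affine_continuous (h g)).comp continuous_subtype_val⟩
  obtain ⟨w₀⟩ : Nonempty W := inferInstance
  have hpc : Continuous p := hd.isLocalHomeomorph.continuous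
  let F : X → W := fun x => if hx : f₀ x ∈ W then ⟨f₀ x, hx⟩ else w₀
  have hFv : ∀ x, f₀ x ∈ W → (F x : Ev) = f₀ x := by
    intro x hx
    simp only [F, dif_pos hx]
  obtain ⟨f, hf, hfe, hfK⟩ := exists_equivariant_rel (Z := W) hd.isLocalHomeomorph hd.surjective
    hd.fiber hfree K W₀ hK hW₀ hKW F
    (by
      intro x hx
      apply ContinuousAt.continuousWithinAt
      refine (Topology.IsInducing.subtypeVal.continuousAt_iff).2 ?_
      have h1 : (Subtype.val ∘ F) =ᶠ[𝓝 x] f₀ := by
        filter_upwards [(hW₀.preimage hpc).mem_nhds hx] with y hy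
        exact hFv y (hf₀W y hy)
      exact hf₀.continuousAt.congr h1.symm)
    (by
      intro x hx g
      apply Subtype.ext
      have h1 : f₀ x ∈ W := hf₀W x hx
      have h2 : f₀ (g • x) ∈ W := by rw [hf₀e]; exact hinv g _ h1
      rw [hFv _ h2, hf₀e]
      change h g (f₀ x) = h g (F x : Ev)
      rw [hFv _ h1])
  refine ⟨fun x => (f x : Ev), continuous_subtype_val.comp hf, ?_, fun x => (f x).2, ?_⟩
  · intro g x
    simp only [hfe]
    rfl
  · intro x hx
    simp only [hfK x hx]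
    exact hFv x (hf₀W x (hKW hx))

variable [IsManifold 𝓘(ℝ, Ev) ∞ M]

/-- **Two sides.** -/
theorem sides_case (hd : IsDeveloping p D h)
    (hfree : ∀ (g : Γ) (x : X), g • x = x → g = 1) (Wm Wp : Set Ev)
    (hmo : IsOpen Wm) (hpo : IsOpen Wp) (hdisj : Disjoint Wm Wp)
    (hminv : ∀ (g : Γ), ∀ y ∈ Wm, h g y ∈ Wm) (hpinv : ∀ (g : Γ), ∀ y ∈ Wp, h g y ∈ Wp)
    [ContractibleSpace Wm] [ContractibleSpace Wp]
    (hcross : ∀ y, y ∉ Wm → y ∉ Wp → ∃ v, HC Wm Wp y v ∧ HC Wp Wm y (-v)) :
    ∃ v : Cₛ^∞⟮𝓘(ℝ, Ev); Ev, (TangentSpace 𝓘(ℝ, Ev) : M → Type _)⟯, ∀ m, v m ≠ 0 := by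
  classical
  have hp := hd.isLocalHomeomorph
  have hpc : Continuous p := hp.continuous
  have hfib := hd.fiber
  have hD : Continuous D := (isLocalHomeomorph_dev hd).continuous
  have hmiff := preserve_iff hminv
  have hpiff := preserve_iff hpinv
  -- the transversal field
  let Q : X → Set Ev := fun x => {v | D x ∉ Wm → D x ∉ Wp → HC Wm Wp (D x) v ∧ HC Wp Wm (D x) (-v)}
  obtain ⟨u, hu, hue, huQ⟩ := exists_equivariant_convex (h := h) hp hd.surjective hfib hfree Q
    (by
      intro x v hv w hw a b ha hb hab h1 h2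
      refine ⟨HC.convex hdisj (D x) (hv h1 h2).1 (hw h1 h2).1 ha hb hab, ?_⟩
      have h3 : -(a • v + b • w) = a • (-v) + b • (-w) := by
        rw [smul_neg, smul_neg]; abel
      rw [h3]
      exact HC.convex hdisj.symm (D x) (hv h1 h2).2 (hw h1 h2).2 ha hb hab)
    (by
      intro g x v hv h1 h2
      rw [hd.equivariant] at h1 h2 ⊢
      rw [hmiff] at h1
      rw [hpiff] at h2
      refine ⟨(hv h1 h2).1.map (h g) (hminv g) (hpinv g), ?_⟩
      rw [← map_neg]
      exact (hv h1 h2).2.map (h g) (hpinv g) (hminv g))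
    (by
      intro x
      by_cases h1 : D x ∈ Wm
      · refine ⟨0, ?_⟩
        filter_upwards [(hmo.preimage hD).mem_nhds h1] with y hy h2
        exact absurd hy h2
      by_cases h2 : D x ∈ Wp
      · refine ⟨0, ?_⟩
        filter_upwards [(hpo.preimage hD).mem_nhds h2] with y hy _ h3
        exact absurd hy h3
      obtain ⟨v, hv1, hv2⟩ := hcross _ h1 h2
      refine ⟨v, ?_⟩
      filter_upwards [hD.continuousAt.eventually (hv1.eventually),
        hD.continuousAt.eventually (hv2.eventually)] with y hy1 hy2 _ _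
      exact ⟨hy1, hy2⟩)
  -- uniform size
  obtain ⟨ε, hε, hP⟩ := uniform hd (fun a x => D x ∉ Wm → D x ∉ Wp → ∀ t : ℝ, 0 < t → t ≤ a →
      D x + t • u x ∈ Wm ∧ D x - t • u x ∈ Wp)
    (fun a b x _ hba hx h1 h2 t h0 hta => hx h1 h2 t h0 (hta.trans hba))
    (by
      intro a g x hx h1 h2 t h0 hta
      rw [hd.equivariant] at h1 h2 ⊢
      rw [hmiff] at h1
      rw [hpiff] at h2
      have h3 := hx h1 h2 t h0 hta
      rw [hue]
      constructor
      · have := hminv g _ h3.1
        rwa [affine_add, map_smul] at this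
      · have := hpinv g _ h3.2
        rwa [sub_eq_add_neg, affine_add, map_neg, map_smul, ← sub_eq_add_neg] at this)
    (by
      intro x
      by_cases h1 : D x ∈ Wm
      · refine ⟨1, one_pos, ?_⟩
        filter_upwards [(hmo.preimage hD).mem_nhds h1] with y hy h2
        exact absurd hy h2
      by_cases h2 : D x ∈ Wp
      · refine ⟨1, one_pos, ?_⟩
        filter_upwards [(hpo.preimage hD).mem_nhds h2] with y hy _ h3
        exact absurd hy h3
      obtain ⟨hv1, hv2⟩ := huQ x h1 h2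
      obtain ⟨U1, hU1, V1, hV1, hUV1⟩ := Filter.mem_prod_iff.1 hv1
      obtain ⟨V1', hV1', T1, hT1, hVT1⟩ := Filter.mem_prod_iff.1 hV1
      obtain ⟨U2, hU2, V2, hV2, hUV2⟩ := Filter.mem_prod_iff.1 hv2
      obtain ⟨V2', hV2', T2, hT2, hVT2⟩ := Filter.mem_prod_iff.1 hV2
      obtain ⟨a1, ha1, hT1'⟩ := mem_nhdsGT_iff_exists_Ioc_subset.1 hT1
      obtain ⟨a2, ha2, hT2'⟩ := mem_nhdsGT_iff_exists_Ioc_subset.1 hT2
      refine ⟨min a1 a2, lt_min ha1 ha2, ?_⟩
      filter_upwards [hD.continuousAt.eventually hU1, hD.continuousAt.eventually hU2,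
        hu.continuousAt.eventually hV1', hu.neg.continuousAt.eventually hV2']
        with y hy1 hy2 hy3 hy4 hy5 hy6 t ht0 hta
      constructor
      · have h3 : ((D y, u y, t) : Ev × Ev × ℝ) ∈ U1 ×ˢ V1 :=
          ⟨hy1, hVT1 ⟨hy3, hT1' ⟨ht0, hta.trans (min_le_left _ _)⟩⟩⟩
        exact hUV1 h3 hy6
      · have h3 : ((D y, -u y, t) : Ev × Ev × ℝ) ∈ U2 ×ˢ V2 :=
          ⟨hy2, hVT2 ⟨hy4, hT2' ⟨ht0, hta.trans (min_le_right _ _)⟩⟩⟩
        have h4 : D y + t • (-u y) ∈ Wp := hUV2 h3 hy5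
        rwa [smul_neg, ← sub_eq_add_neg] at h4)
  -- neighbourhood of the wall
  set S : Set X := {x | D x + ε • u x ∈ Wm ∧ D x - ε • u x ∈ Wp} with hS
  have hSo : IsOpen S := by
    apply IsOpen.inter
    · exact hmo.preimage (hD.add (hu.const_smul ε))
    · exact hpo.preimage (hD.sub (hu.const_smul ε))
  have hSinv : ∀ (g : Γ) x, x ∈ S → g • x ∈ S := by
    intro g x hx
    refine ⟨?_, ?_⟩
    · have := hminv g _ hx.1
      rwa [affine_add, map_smul, ← hd.equivariant, ← hue] at this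
    · have := hpinv g _ hx.2
      rwa [sub_eq_add_neg, affine_add, map_neg, map_smul, ← sub_eq_add_neg, ← hd.equivariant,
        ← hue] at this
  set N : Set M := p '' S with hN
  have hNo : IsOpen N := hp.isOpenMap S hSo
  have hNS : ∀ x, p x ∈ N → x ∈ S := by
    rintro x ⟨y, hy, hyx⟩
    obtain ⟨g, rfl⟩ := (hfib y x).1 hyx
    exact hSinv g y hy
  set R : Set X := {x | D x ∈ Wm ∨ D x ∈ Wp} with hR
  have hRo : IsOpen R := (hmo.preimage hD).union (hpo.preimage hD)
  have hRinv : ∀ (g : Γ) x, x ∈ R → g • x ∈ R := by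
    intro g x hx
    change D (g • x) ∈ Wm ∨ D (g • x) ∈ Wp
    rw [hd.equivariant, hmiff, hpiff]
    exact hx
  set K₀ : Set M := (p '' R)ᶜ with hK₀
  have hK₀c : IsClosed K₀ := (hp.isOpenMap R hRo).isClosed_compl
  have hK₀x : ∀ x, x ∉ R → p x ∈ K₀ := by
    rintro x hx ⟨y, hy, hyx⟩
    obtain ⟨g, rfl⟩ := (hfib y x).1 hyx
    exact hx (hRinv g y hy)
  have hK₀N : K₀ ⊆ N := by
    intro m hm
    obtain ⟨x, rfl⟩ := hd.surjective m
    have hxR : x ∉ R := fun h' => hm ⟨x, h', rfl⟩
    have h1 : D x ∉ Wm := fun h' => hxR (Or.inl h')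
    have h2 : D x ∉ Wp := fun h' => hxR (Or.inr h')
    exact ⟨x, hP x h1 h2 ε hε le_rfl, rfl⟩
  obtain ⟨O, hOo, hK₀O, hON⟩ := normal_exists_closure_subset hK₀c hNo hK₀N
  -- maps to the sides
  obtain ⟨fm, hfm, hfme, hfmW, hfmK⟩ := exists_into_set hd hfree Wm hmo hminv (closure O) N
    isClosed_closure hNo hON (fun x => D x + ε • u x) (hD.add (hu.const_smul ε))
    (fun x hx => (hNS x hx).1) (by
      intro g x
      rw [hd.equivariant, hue, affine_add, map_smul])
  obtain ⟨fp, hfp, hfpe, hfpW, hfpK⟩ := exists_into_set hd hfree Wp hpo hpinv (closure O) N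
    isClosed_closure hNo hON (fun x => D x - ε • u x) (hD.sub (hu.const_smul ε))
    (fun x hx => (hNS x hx).2) (by
      intro g x
      rw [hd.equivariant, hue, sub_eq_add_neg, sub_eq_add_neg, affine_add, map_neg, map_smul])
  let V : X → Ev := fun x => if D x ∈ Wp then fm x - D x else if D x ∈ Wm then D x - fp x
    else ε • u x
  have hVO : ∀ x, p x ∈ O → V x = ε • u x := by
    intro x hx
    by_cases h1 : D x ∈ Wp
    · simp only [V, if_pos h1]
      rw [hfmK x (subset_closure hx)]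
      abel
    · by_cases h2 : D x ∈ Wm
      · simp only [V, if_neg h1, if_pos h2]
        rw [hfpK x (subset_closure hx)]
        abel
      · simp only [V, if_neg h1, if_neg h2]
  refine smooth_of_continuous hd hfree V ?_ ?_ ?_
  · rw [continuous_iff_continuousAt]
    intro x
    by_cases h1 : D x ∈ Wp
    · have hev : V =ᶠ[𝓝 x] fun y => fm y - D y := by
        filter_upwards [(hpo.preimage hD).mem_nhds h1] with y hy
        have hy' : D y ∈ Wp := hy
        simp only [V, if_pos hy']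
      exact (hfm.sub hD).continuousAt.congr hev.symm
    by_cases h2 : D x ∈ Wm
    · have hev : V =ᶠ[𝓝 x] fun y => D y - fp y := by
        filter_upwards [(hmo.preimage hD).mem_nhds h2] with y hy
        have hy' : D y ∈ Wm := hy
        have hy'' : D y ∉ Wp := fun h' => Set.disjoint_left.1 hdisj hy' h'
        simp only [V, if_neg hy'', if_pos hy']
      exact (hD.sub hfp).continuousAt.congr hev.symm
    have hxK : p x ∈ O := hK₀O (hK₀x x (by rintro (h' | h') <;> contradiction))
    have hev : V =ᶠ[𝓝 x] fun y => ε • u y := by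
      filter_upwards [(hOo.preimage hpc).mem_nhds hxK] with y hy
      exact hVO y hy
    exact (hu.const_smul ε).continuousAt.congr hev.symm
  · intro g x
    simp only [V]
    rw [hd.equivariant, hfme, hfpe, hue]
    simp only [hmiff, hpiff]
    have hsub : ∀ a b : Ev, h g a - h g b = (h g).linear (a - b) := by
      intro a b
      rw [affineEquiv_apply (h g) a, affineEquiv_apply (h g) b, map_sub]
      abel
    split_ifs
    · exact hsub _ _
    · exact hsub _ _
    · rw [map_smul]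
  · intro x
    by_cases h1 : D x ∈ Wp
    · simp only [V, if_pos h1]
      intro h0
      have h3 : fm x = D x := sub_eq_zero.1 h0
      exact Set.disjoint_left.1 hdisj (hfmW x) (h3 ▸ h1)
    by_cases h2 : D x ∈ Wm
    · simp only [V, if_neg h1, if_pos h2]
      intro h0
      have h3 : D x = fp x := sub_eq_zero.1 h0
      exact Set.disjoint_left.1 hdisj h2 (h3 ▸ hfpW x)
    · simp only [V, if_neg h1, if_neg h2]
      intro h0
      have h3 := hP x h2 h1 ε hε le_rfl
      rw [h0, add_zero, sub_zero] at h3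
      exact h2 h3.1

end main

end

end Pool.Agent.Hhelper9.Chern
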