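import Pool.Agent.Hhelper9.Chern.Sides

open Set Filter Topology Manifold Bundle
open scoped ContDiff

namespace Pool.Agent.Hhelper9.Chern

noncomputable section

section main

variable {Ev : Type*} [NormedAddCommGroup Ev] [InnerProductSpace ℝ Ev] [FiniteDimensional ℝ Ev]
  {M X Γ : Type*} [TopologicalSpace M] [T2Space M] [CompactSpace M]
  [ChartedSpace Ev M]
  [TopologicalSpace X] [Group Γ] [MulAction Γ X] [ContinuousConstSMul Γ X]
  {p : X → M} {D : X → Ev} {h : Γ →* (Ev ≃ᵃ[ℝ] Ev)}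

/-- The linear action on `Ev × ℝ` of the affine map `h g : y ↦ L y + b`, namely
`(v, t) ↦ (L v + t b, t)` (here `linAct h g v = L v` and `act h g 0 = b`). -/
def homAct (h : Γ →* (Ev ≃ᵃ[ℝ] Ev)) (g : Γ) (y : Ev × ℝ) : Ev × ℝ :=
  (linAct h g y.1 + y.2 • act h g 0, y.2)

/-- The contractible `Γ`-space `Z` extends the invariant set `W` beyond infinity: `j : W → Z` and
`ψ : Z → Ev × ℝ` are continuous and equivariant, `ψ (j y) = (y, 1)`, and no value of `ψ` is a
multiple `t • (D x, 1)` of a point `D x` of the developing image outside `W`. -/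
structure IsExtension {Z : Type*} [TopologicalSpace Z] [MulAction Γ Z]
    (D : X → Ev) (h : Γ →* (Ev ≃ᵃ[ℝ] Ev)) (W : Set Ev) (j : W → Z) (ψ : Z → Ev × ℝ) : Prop where
  contractible : ContractibleSpace Z
  continuous_j : Continuous j
  equivariant_j : ∀ (g : Γ) (y : W) (hy : act h g y ∈ W), j ⟨act h g y, hy⟩ = g • j y
  continuous_ψ : Continuous ψ
  equivariant_ψ : ∀ (g : Γ) (z : Z), ψ (g • z) = homAct h g (ψ z)
  ψ_j : ∀ y : W, ψ (j y) = ((y : Ev), 1)
  avoids : ∀ x, D x ∉ W → ∀ z, (ψ z).1 ≠ (ψ z).2 • D x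

/-- extension of an equivariant map into `Z` -/
theorem exists_into_ext (hd : IsDeveloping p D h)
    (hfree : ∀ (g : Γ) (x : X), g • x = x → g = 1) (W : Set Ev)
    (hinv : ∀ (g : Γ), ∀ y ∈ W, h g y ∈ W) {Z : Type*} [TopologicalSpace Z] [MulAction Γ Z]
    [ContinuousConstSMul Γ Z] {j : W → Z} {ψ : Z → Ev × ℝ} (hZ : IsExtension D h W j ψ)
    (K W₀ : Set M) (hK : IsClosed K) (hW₀ : IsOpen W₀) (hKW : K ⊆ W₀)
    (f₀ : X → Ev) (hf₀ : Continuous f₀) (hf₀W : ∀ x, p x ∈ W₀ → f₀ x ∈ W)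
    (hf₀e : ∀ (g : Γ) x, f₀ (g • x) = h g (f₀ x)) :
    ∃ f : X → Z, Continuous f ∧ (∀ (g : Γ) x, f (g • x) = g • (f x)) ∧
      ∀ x, p x ∈ K → ψ (f x) = (f₀ x, 1) := by
  classical
  have _ := hZ.contractible
  obtain ⟨z₀⟩ : Nonempty Z := inferInstance
  have hpc : Continuous p := hd.isLocalHomeomorph.continuous
  let F : X → Z := fun x => if hx : f₀ x ∈ W then j ⟨f₀ x, hx⟩ else z₀
  have hFv : ∀ x (hx : f₀ x ∈ W), F x = j ⟨f₀ x, hx⟩ := by
    intro x hx
    simp only [F, dif_pos hx]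
  obtain ⟨f, hf, hfe, hfK⟩ := exists_equivariant_rel (Z := Z) hd.isLocalHomeomorph hd.surjective
    hd.fiber hfree K W₀ hK hW₀ hKW F
    (by
      rw [continuousOn_iff_continuous_domRestrict]
      have h1 : (p ⁻¹' W₀).domRestrict F = fun x : (p ⁻¹' W₀) => j ⟨f₀ x, hf₀W _ x.2⟩ := by
        funext x
        exact hFv _ (hf₀W _ x.2)
      rw [h1]
      exact hZ.continuous_j.comp (Continuous.subtype_mk (hf₀.comp continuous_subtype_val) _))
    (by
      intro x hx g
      have h1 : f₀ x ∈ W := hf₀W x hx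
      have h2 : f₀ (g • x) ∈ W := by rw [hf₀e]; exact hinv g _ h1
      have h3 : act h g (f₀ x) ∈ W := hinv g _ h1
      rw [hFv _ h2, hFv _ h1, ← hZ.equivariant_j g ⟨f₀ x, h1⟩ h3]
      congr 1
      exact Subtype.ext (hf₀e g x))
  refine ⟨f, hf, hfe, ?_⟩
  intro x hx
  rw [hfK x hx, hFv x (hf₀W x (hKW hx)), hZ.ψ_j]

variable [IsManifold 𝓘(ℝ, Ev) ∞ M]

/-- **Two sides, general form.** -/
theorem sides_case_ext (hd : IsDeveloping p D h)
    (hfree : ∀ (g : Γ) (x : X), g • x = x → g = 1) (Wm Wp : Set Ev)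
    (hmo : IsOpen Wm) (hpo : IsOpen Wp) (hdisj : Disjoint Wm Wp)
    (hminv : ∀ (g : Γ), ∀ y ∈ Wm, h g y ∈ Wm) (hpinv : ∀ (g : Γ), ∀ y ∈ Wp, h g y ∈ Wp)
    {Zm Zp : Type*} [TopologicalSpace Zm] [MulAction Γ Zm] [ContinuousConstSMul Γ Zm]
    [TopologicalSpace Zp] [MulAction Γ Zp] [ContinuousConstSMul Γ Zp]
    {jm : Wm → Zm} {ψm : Zm → Ev × ℝ} (hZm : IsExtension D h Wm jm ψm)
    {jp : Wp → Zp} {ψp : Zp → Ev × ℝ} (hZp : IsExtension D h Wp jp ψp)
    (hcross : ∀ y, y ∉ Wm → y ∉ Wp → ∃ v, HC Wm Wp y v ∧ HC Wp Wm y (-v)) :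
    ∃ v : Cₛ^∞⟮𝓘(ℝ, Ev); Ev, (TangentSpace 𝓘(ℝ, Ev) : M → Type _)⟯, ∀ m, v m ≠ 0 := by
  classical
  have hp := hd.isLocalHomeomorph
  have hpc : Continuous p := hp.continuous
  have hfib := hd.fiber
  have hD : Continuous D := (isLocalHomeomorph_dev hd).continuous
  have hmiff := preserve_iff hminv
  have hpiff := preserve_iff hpinv
  -- the transversal field
  let Q : X → Set Ev := fun x => {v | D x ∉ Wm → D x ∉ Wp → HC Wm Wp (D x) v ∧ HC Wp Wm (D x) (-v)}
  obtain ⟨u, hu, hue, huQ⟩ := exists_equivariant_convex (h := h) hp hd.surjective hfib hfree Q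
    (by
      intro x v hv w hw a b ha hb hab h1 h2
      refine ⟨HC.convex hdisj (D x) (hv h1 h2).1 (hw h1 h2).1 ha hb hab, ?_⟩
      have h3 : -(a • v + b • w) = a • (-v) + b • (-w) := by
        rw [smul_neg, smul_neg]; abel
      rw [h3]
      exact HC.convex hdisj.symm (D x) (hv h1 h2).2 (hw h1 h2).2 ha hb hab)
    (by
      intro g x v hv h1 h2
      rw [hd.equivariant] at h1 h2 ⊢
      rw [hmiff] at h1
      rw [hpiff] at h2
      refine ⟨(hv h1 h2).1.map (h g) (hminv g) (hpinv g), ?_⟩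
      rw [← map_neg]
      exact (hv h1 h2).2.map (h g) (hpinv g) (hminv g))
    (by
      intro x
      by_cases h1 : D x ∈ Wm
      · refine ⟨0, ?_⟩
        filter_upwards [(hmo.preimage hD).mem_nhds h1] with y hy h2
        exact absurd hy h2
      by_cases h2 : D x ∈ Wp
      · refine ⟨0, ?_⟩
        filter_upwards [(hpo.preimage hD).mem_nhds h2] with y hy _ h3
        exact absurd hy h3
      obtain ⟨v, hv1, hv2⟩ := hcross _ h1 h2
      refine ⟨v, ?_⟩
      filter_upwards [hD.continuousAt.eventually (hv1.eventually),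
        hD.continuousAt.eventually (hv2.eventually)] with y hy1 hy2 _ _
      exact ⟨hy1, hy2⟩)
  -- uniform size
  obtain ⟨ε, hε, hP⟩ := uniform hd (fun a x => D x ∉ Wm → D x ∉ Wp → ∀ t : ℝ, 0 < t → t ≤ a →
      D x + t • u x ∈ Wm ∧ D x - t • u x ∈ Wp)
    (fun a b x _ hba hx h1 h2 t h0 hta => hx h1 h2 t h0 (hta.trans hba))
    (by
      intro a g x hx h1 h2 t h0 hta
      rw [hd.equivariant] at h1 h2 ⊢
      rw [hmiff] at h1
      rw [hpiff] at h2
      have h3 := hx h1 h2 t h0 hta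
      rw [hue]
      constructor
      · have := hminv g _ h3.1
        rwa [affine_add, map_smul] at this
      · have := hpinv g _ h3.2
        rwa [sub_eq_add_neg, affine_add, map_neg, map_smul, ← sub_eq_add_neg] at this)
    (by
      intro x
      by_cases h1 : D x ∈ Wm
      · refine ⟨1, one_pos, ?_⟩
        filter_upwards [(hmo.preimage hD).mem_nhds h1] with y hy h2
        exact absurd hy h2
      by_cases h2 : D x ∈ Wp
      · refine ⟨1, one_pos, ?_⟩
        filter_upwards [(hpo.preimage hD).mem_nhds h2] with y hy _ h3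
        exact absurd hy h3
      obtain ⟨hv1, hv2⟩ := huQ x h1 h2
      obtain ⟨U1, hU1, V1, hV1, hUV1⟩ := Filter.mem_prod_iff.1 hv1
      obtain ⟨V1', hV1', T1, hT1, hVT1⟩ := Filter.mem_prod_iff.1 hV1
      obtain ⟨U2, hU2, V2, hV2, hUV2⟩ := Filter.mem_prod_iff.1 hv2
      obtain ⟨V2', hV2', T2, hT2, hVT2⟩ := Filter.mem_prod_iff.1 hV2
      obtain ⟨a1, ha1, hT1'⟩ := mem_nhdsGT_iff_exists_Ioc_subset.1 hT1
      obtain ⟨a2, ha2, hT2'⟩ := mem_nhdsGT_iff_exists_Ioc_subset.1 hT2
      refine ⟨min a1 a2, lt_min ha1 ha2, ?_⟩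
      filter_upwards [hD.continuousAt.eventually hU1, hD.continuousAt.eventually hU2,
        hu.continuousAt.eventually hV1', hu.neg.continuousAt.eventually hV2']
        with y hy1 hy2 hy3 hy4 hy5 hy6 t ht0 hta
      constructor
      · have h3 : ((D y, u y, t) : Ev × Ev × ℝ) ∈ U1 ×ˢ V1 :=
          ⟨hy1, hVT1 ⟨hy3, hT1' ⟨ht0, hta.trans (min_le_left _ _)⟩⟩⟩
        exact hUV1 h3 hy6
      · have h3 : ((D y, -u y, t) : Ev × Ev × ℝ) ∈ U2 ×ˢ V2 :=
          ⟨hy2, hVT2 ⟨hy4, hT2' ⟨ht0, hta.trans (min_le_right _ _)⟩⟩⟩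
        have h4 : D y + t • (-u y) ∈ Wp := hUV2 h3 hy5
        rwa [smul_neg, ← sub_eq_add_neg] at h4)
  -- neighbourhood of the wall
  set S : Set X := {x | D x + ε • u x ∈ Wm ∧ D x - ε • u x ∈ Wp} with hS
  have hSo : IsOpen S := by
    apply IsOpen.inter
    · exact hmo.preimage (hD.add (hu.const_smul ε))
    · exact hpo.preimage (hD.sub (hu.const_smul ε))
  have hSinv : ∀ (g : Γ) x, x ∈ S → g • x ∈ S := by
    intro g x hx
    refine ⟨?_, ?_⟩
    · have := hminv g _ hx.1
      rwa [affine_add, map_smul, ← hd.equivariant, ← hue] at this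
    · have := hpinv g _ hx.2
      rwa [sub_eq_add_neg, affine_add, map_neg, map_smul, ← sub_eq_add_neg, ← hd.equivariant,
        ← hue] at this
  set N : Set M := p '' S with hN
  have hNo : IsOpen N := hp.isOpenMap S hSo
  have hNS : ∀ x, p x ∈ N → x ∈ S := by
    rintro x ⟨y, hy, hyx⟩
    obtain ⟨g, rfl⟩ := (hfib y x).1 hyx
    exact hSinv g y hy
  set R : Set X := {x | D x ∈ Wm ∨ D x ∈ Wp} with hR
  have hRo : IsOpen R := (hmo.preimage hD).union (hpo.preimage hD)
  have hRinv : ∀ (g : Γ) x, x ∈ R → g • x ∈ R := by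
    intro g x hx
    change D (g • x) ∈ Wm ∨ D (g • x) ∈ Wp
    rw [hd.equivariant, hmiff, hpiff]
    exact hx
  set K₀ : Set M := (p '' R)ᶜ with hK₀
  have hK₀c : IsClosed K₀ := (hp.isOpenMap R hRo).isClosed_compl
  have hK₀x : ∀ x, x ∉ R → p x ∈ K₀ := by
    rintro x hx ⟨y, hy, hyx⟩
    obtain ⟨g, rfl⟩ := (hfib y x).1 hyx
    exact hx (hRinv g y hy)
  have hK₀N : K₀ ⊆ N := by
    intro m hm
    obtain ⟨x, rfl⟩ := hd.surjective m
    have hxR : x ∉ R := fun h' => hm ⟨x, h', rfl⟩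
    have h1 : D x ∉ Wm := fun h' => hxR (Or.inl h')
    have h2 : D x ∉ Wp := fun h' => hxR (Or.inr h')
    exact ⟨x, hP x h1 h2 ε hε le_rfl, rfl⟩
  obtain ⟨O, hOo, hK₀O, hON⟩ := normal_exists_closure_subset hK₀c hNo hK₀N
  -- maps to the sides
  obtain ⟨fm, hfm, hfme, hfmK⟩ := exists_into_ext hd hfree Wm hminv hZm (closure O) N
    isClosed_closure hNo hON (fun x => D x + ε • u x) (hD.add (hu.const_smul ε))
    (fun x hx => (hNS x hx).1) (by
      intro g x
      rw [hd.equivariant, hue, affine_add, map_smul])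
  obtain ⟨fp, hfp, hfpe, hfpK⟩ := exists_into_ext hd hfree Wp hpinv hZp (closure O) N
    isClosed_closure hNo hON (fun x => D x - ε • u x) (hD.sub (hu.const_smul ε))
    (fun x hx => (hNS x hx).2) (by
      intro g x
      rw [hd.equivariant, hue, sub_eq_add_neg, sub_eq_add_neg, affine_add, map_neg, map_smul])
  let dm : X → Ev := fun x => (ψm (fm x)).1 - (ψm (fm x)).2 • D x
  let dp : X → Ev := fun x => (ψp (fp x)).1 - (ψp (fp x)).2 • D x
  have hdm : Continuous dm := by
    have h1 : Continuous fun x => ψm (fm x) := hZm.continuous_ψ.comp hfm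
    exact (continuous_fst.comp h1).sub ((continuous_snd.comp h1).smul hD)
  have hdp : Continuous dp := by
    have h1 : Continuous fun x => ψp (fp x) := hZp.continuous_ψ.comp hfp
    exact (continuous_fst.comp h1).sub ((continuous_snd.comp h1).smul hD)
  have hdir : ∀ (g : Γ) (q : Ev × ℝ) (y : Ev), (homAct h g q).1 - (homAct h g q).2 • h g y
      = (h g).linear (q.1 - q.2 • y) := by
    intro g q y
    rw [affineEquiv_apply (h g) y, map_sub, map_smul]
    simp only [homAct, linAct, act, smul_add]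
    abel
  have hdme : ∀ (g : Γ) x, dm (g • x) = (h g).linear (dm x) := by
    intro g x
    simp only [dm]
    rw [hfme, hZm.equivariant_ψ, hd.equivariant, hdir]
  have hdpe : ∀ (g : Γ) x, dp (g • x) = (h g).linear (dp x) := by
    intro g x
    simp only [dp]
    rw [hfpe, hZp.equivariant_ψ, hd.equivariant, hdir]
  let V : X → Ev := fun x => if D x ∈ Wp then dm x else if D x ∈ Wm then - dp x
    else ε • u x
  have hVO : ∀ x, p x ∈ O → V x = ε • u x := by
    intro x hx
    by_cases h1 : D x ∈ Wp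
    · simp only [V, if_pos h1, dm]
      rw [hfmK x (subset_closure hx)]
      have h3 : (D x + ε • u x) - (1 : ℝ) • D x = ε • u x := by
        rw [one_smul, add_sub_cancel_left]
      exact h3
    · by_cases h2 : D x ∈ Wm
      · simp only [V, if_neg h1, if_pos h2, dp]
        rw [hfpK x (subset_closure hx)]
        have h3 : -((D x - ε • u x) - (1 : ℝ) • D x) = ε • u x := by
          rw [one_smul]; abel
        exact h3
      · simp only [V, if_neg h1, if_neg h2]
  refine smooth_of_continuous hd hfree V ?_ ?_ ?_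
  · rw [continuous_iff_continuousAt]
    intro x
    by_cases h1 : D x ∈ Wp
    · have hev : V =ᶠ[𝓝 x] dm := by
        filter_upwards [(hpo.preimage hD).mem_nhds h1] with y hy
        have hy' : D y ∈ Wp := hy
        simp only [V, if_pos hy']
      exact hdm.continuousAt.congr hev.symm
    by_cases h2 : D x ∈ Wm
    · have hev : V =ᶠ[𝓝 x] fun y => - dp y := by
        filter_upwards [(hmo.preimage hD).mem_nhds h2] with y hy
        have hy' : D y ∈ Wm := hy
        have hy'' : D y ∉ Wp := fun h' => Set.disjoint_left.1 hdisj hy' h'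
        simp only [V, if_neg hy'', if_pos hy']
      exact hdp.neg.continuousAt.congr hev.symm
    have hxK : p x ∈ O := hK₀O (hK₀x x (by rintro (h' | h') <;> contradiction))
    have hev : V =ᶠ[𝓝 x] fun y => ε • u y := by
      filter_upwards [(hOo.preimage hpc).mem_nhds hxK] with y hy
      exact hVO y hy
    exact (hu.const_smul ε).continuousAt.congr hev.symm
  · intro g x
    simp only [V]
    rw [hd.equivariant, hdme, hdpe, hue]
    simp only [hmiff, hpiff]
    split_ifs
    · rfl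
    · rw [map_neg]
    · rw [map_smul]
  · intro x
    by_cases h1 : D x ∈ Wp
    · simp only [V, if_pos h1]
      exact sub_ne_zero.2 (hZm.avoids x (fun h' => Set.disjoint_left.1 hdisj h' h1) _)
    by_cases h2 : D x ∈ Wm
    · simp only [V, if_neg h1, if_pos h2]
      exact neg_ne_zero.2 (sub_ne_zero.2
        (hZp.avoids x (fun h' => Set.disjoint_left.1 hdisj h2 h') _))
    · simp only [V, if_neg h1, if_neg h2]
      intro h0
      have h3 := hP x h2 h1 ε hε le_rfl
      rw [h0, add_zero, sub_zero] at h3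
      exact h2 h3.1

end main

end

end Pool.Agent.Hhelper9.Chern
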