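import Pool.Agent.Hhelper9.Chern.Sides2

/-!
Two special cases of `sides_case_ext` (they are not hand-ins; they illustrate the general theorem).
-/

open Set Filter Topology Manifold Bundle
open scoped ContDiff

namespace Pool.Agent.Hhelper9.Chern

noncomputable section

variable {Ev : Type*} [NormedAddCommGroup Ev] [InnerProductSpace ℝ Ev] [FiniteDimensional ℝ Ev]
  {M X Γ : Type*} [TopologicalSpace M] [T2Space M] [CompactSpace M]
  [ChartedSpace Ev M] [IsManifold 𝓘(ℝ, Ev) ∞ M]
  [TopologicalSpace X] [Group Γ] [MulAction Γ X] [ContinuousConstSMul Γ X]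
  {p : X → M} {D : X → Ev} {h : Γ →* (Ev ≃ᵃ[ℝ] Ev)}

omit [FiniteDimensional ℝ Ev] [TopologicalSpace M] [T2Space M] [CompactSpace M]
  [ChartedSpace Ev M] [IsManifold 𝓘(ℝ, Ev) ∞ M]
  [TopologicalSpace X] [MulAction Γ X] [ContinuousConstSMul Γ X] in
theorem homAct_one (g : Γ) (y : Ev) : homAct h g (y, 1) = (h g y, 1) := by
  have h1 : h g y = (h g).linear y + h g 0 := by
    have := (h g).map_vadd 0 y
    simpa using this
  simp only [homAct, linAct, act, one_smul]
  rw [h1]

omit [T2Space M] [CompactSpace M] [IsManifold 𝓘(ℝ, Ev) ∞ M] [ContinuousConstSMul Γ X]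
  [TopologicalSpace M] [ChartedSpace Ev M] [TopologicalSpace X] [MulAction Γ X]
  [FiniteDimensional ℝ Ev] in
/-- An invariant contractible set is an extension of itself. -/
theorem isExtension_self (D : X → Ev) (W : Set Ev) (hinv : ∀ (g : Γ), ∀ y ∈ W, h g y ∈ W)
    [ContractibleSpace W] :
    letI := setAction h W hinv
    IsExtension D h W (fun y : W => y) (fun y : W => ((y : Ev), (1 : ℝ))) := by
  letI := setAction h W hinv
  exact
    { contractible := inferInstance
      continuous_j := continuous_id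
      equivariant_j := fun g y hy => rfl
      continuous_ψ := by fun_prop
      equivariant_ψ := fun g y => (homAct_one g (y : Ev)).symm
      ψ_j := fun y => rfl
      avoids := by
        intro x hx z hz
        simp only [one_smul] at hz
        exact hx (hz ▸ z.2) }

/-- Special case 1: both sides contractible. -/
theorem two_sides (hd : IsDeveloping p D h) (hfree : ∀ (g : Γ) (x : X), g • x = x → g = 1)
    (Wm Wp : Set Ev) (hmo : IsOpen Wm) (hpo : IsOpen Wp) (hdisj : Disjoint Wm Wp)
    (hminv : ∀ (g : Γ), ∀ y ∈ Wm, h g y ∈ Wm) (hpinv : ∀ (g : Γ), ∀ y ∈ Wp, h g y ∈ Wp)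
    [ContractibleSpace Wm] [ContractibleSpace Wp]
    (hcross : ∀ y, y ∉ Wm → y ∉ Wp → ∃ v, HC Wm Wp y v ∧ HC Wp Wm y (-v)) :
    ∃ v : Cₛ^∞⟮𝓘(ℝ, Ev); Ev, (TangentSpace 𝓘(ℝ, Ev) : M → Type _)⟯, ∀ m, v m ≠ 0 := by
  letI := setAction h Wm hminv
  letI := setAction h Wp hpinv
  haveI : ContinuousConstSMul Γ Wm := ⟨fun g => by
    apply Continuous.subtype_mk
    exact (affine_continuous (h g)).comp continuous_subtype_val⟩
  haveI : ContinuousConstSMul Γ Wp := ⟨fun g => by
    apply Continuous.subtype_mk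
    exact (affine_continuous (h g)).comp continuous_subtype_val⟩
  exact sides_case_ext hd hfree Wm Wp hmo hpo hdisj hminv hpinv (isExtension_self D Wm hminv)
    (isExtension_self D Wp hpinv) hcross

/-- Special case 2: a contractible `Γ`-space avoiding the whole developing image. -/
theorem contractible_avoiding (hd : IsDeveloping p D h)
    (hfree : ∀ (g : Γ) (x : X), g • x = x → g = 1)
    {Z : Type*} [TopologicalSpace Z] [MulAction Γ Z] [ContinuousConstSMul Γ Z]
    [ContractibleSpace Z] (ψ : Z → Ev × ℝ) (hψ : Continuous ψ)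
    (hψe : ∀ (g : Γ) (z : Z), ψ (g • z) = homAct h g (ψ z))
    (hav : ∀ x z, (ψ z).1 ≠ (ψ z).2 • D x) :
    ∃ v : Cₛ^∞⟮𝓘(ℝ, Ev); Ev, (TangentSpace 𝓘(ℝ, Ev) : M → Type _)⟯, ∀ m, v m ≠ 0 := by
  have hu : ∀ (g : Γ), ∀ y ∈ (univ : Set Ev), h g y ∈ (univ : Set Ev) := fun _ _ _ => mem_univ _
  letI := setAction h univ hu
  haveI : ContinuousConstSMul Γ (univ : Set Ev) := ⟨fun g => by
    apply Continuous.subtype_mk
    exact (affine_continuous (h g)).comp continuous_subtype_val⟩
  haveI : ContractibleSpace (univ : Set Ev) :=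
    (Homeomorph.Set.univ Ev).contractibleSpace_iff.2 inferInstance
  let j : (∅ : Set Ev) → Z := fun y => (notMem_empty _ y.2).elim
  have hZ : IsExtension D h ∅ j ψ :=
    { contractible := inferInstance
      continuous_j := continuous_of_discreteTopology
      equivariant_j := fun g y => (notMem_empty _ y.2).elim
      continuous_ψ := hψ
      equivariant_ψ := hψe
      ψ_j := fun y => (notMem_empty _ y.2).elim
      avoids := fun x _ z => hav x z }
  exact sides_case_ext hd hfree ∅ univ isOpen_empty isOpen_univ (Set.empty_disjoint _)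
    (fun _ _ h => h) hu hZ (isExtension_self D univ hu) (fun y _ h2 => (h2 (mem_univ _)).elim)

end

end Pool.Agent.Hhelper9.Chern
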